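import Pool.Agent.Lib.MP_bc13a4_co.Tri.Samp

set_option autoImplicit false

namespace Pool.Agent.Lib.MP_bc13a4_co.Tri

open Finset Dom

section

variable {V : Type} [Fintype V] [DecidableEq V]

/-- a blow-up of a pattern contains a dense `m`-set -/
theorem build {a : ℕ} (K : Finset (Finset (Fin a))) (hK : Good K) (w : Fin a → ℕ)
    (H : Finset (Finset V)) (hH : ∀ e ∈ H, e.card = 3) (T : Fin a → Finset V) (m r : ℕ)
    (hT : ∀ i, (T i).card = m) (hr : (∑ i, w i) * r ≤ m) (hm : 1 ≤ m)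
    (hmV : m ≤ Fintype.card V) (hTR : ∀ f : Fin a → V, (∀ i, f i ∈ T i) → Emb K H f) :
    ∃ S : Finset V, S.card = m ∧
      (∑ i : Fin a, ∑ j : Fin a, ∑ l : Fin a, if ({i, j, l} : Finset (Fin a)) ∈ K then
        (w i : ℝ) * w j * w l else 0) * (r : ℝ) ^ 3
        ≤ 6 * ((H.filter (fun e => e ⊆ S)).card : ℝ) := by
  classical
  have hne : ∀ i, (T i).Nonempty := fun i => by
    rw [← Finset.card_pos, hT i]
    omega
  -- disjointness
  have hdis : ∀ i j, i ≠ j → ∀ v, v ∈ T i → v ∉ T j := by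
    intro i j hij v hvi hvj
    have hf : Emb K H (fun l => if l = i then v else if l = j then v else (hne l).choose) := by
      refine hTR _ fun l => ?_
      by_cases h1 : l = i
      · rw [if_pos h1, h1]; exact hvi
      · rw [if_neg h1]
        by_cases h2 : l = j
        · rw [if_pos h2, h2]; exact hvj
        · rw [if_neg h2]; exact (hne l).choose_spec
    have hinj := emb_injective hK hH hf
    have h3 : (fun l => if l = i then v else if l = j then v else (hne l).choose) i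
        = (fun l => if l = i then v else if l = j then v else (hne l).choose) j := by
      simp [hij.symm]
    exact hij (hinj h3)
  -- choose parts
  have hsub : ∀ i, ∃ W : Finset V, W ⊆ T i ∧ W.card = w i * r := by
    intro i
    have h1 : w i * r ≤ (T i).card := by
      rw [hT i]
      refine le_trans (Nat.mul_le_mul_right r ?_) hr
      exact Finset.single_le_sum (f := w) (fun _ _ => Nat.zero_le _) (Finset.mem_univ i)
    exact Finset.exists_subset_card_eq h1
  choose W hWT hWc using hsub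
  have hWdis : ∀ i j, i ≠ j → ∀ v, v ∈ W i → v ∉ W j := fun i j hij v h1 h2 =>
    hdis i j hij v (hWT i h1) (hWT j h2)
  set S0 : Finset V := Finset.univ.biUnion W with hS0
  have hS0c : S0.card ≤ m := by
    refine (Finset.card_biUnion_le).trans ?_
    rw [Finset.sum_congr rfl fun i _ => hWc i, ← Finset.sum_mul]
    exact hr
  obtain ⟨S, hS0S, hSc⟩ := Finset.exists_superset_card_eq hS0c hmV
  refine ⟨S, hSc, ?_⟩
  have h3 : 6 * ((H.filter (fun e => e ⊆ S)).card : ℝ) = oc (H.filter (fun e => e ⊆ S)) :=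
    (oc_eq _ fun e he => hH e (Finset.mem_filter.1 he).1).symm
  rw [h3]
  unfold oc
  have hpt : ∀ u v x : V, (∑ i : Fin a, ∑ j : Fin a, ∑ l : Fin a,
      if ({i, j, l} : Finset (Fin a)) ∈ K then ((if u ∈ W i then (1 : ℝ) else 0) *
        (if v ∈ W j then 1 else 0) * (if x ∈ W l then 1 else 0)) else 0)
      ≤ if ({u, v, x} : Finset V) ∈ H.filter (fun e => e ⊆ S) then (1 : ℝ) else 0 := by
    intro u v x
    by_cases hu : ∃ i, u ∈ W i
    swap
    · push Not at hu
      have : (∑ i : Fin a, ∑ j : Fin a, ∑ l : Fin a,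
        if ({i, j, l} : Finset (Fin a)) ∈ K then ((if u ∈ W i then (1 : ℝ) else 0) *
        (if v ∈ W j then 1 else 0) * (if x ∈ W l then 1 else 0)) else 0) = 0 := by
        refine Finset.sum_eq_zero fun i _ => Finset.sum_eq_zero fun j _ =>
          Finset.sum_eq_zero fun l _ => ?_
        rw [if_neg (hu i)]
        simp
      rw [this]
      split_ifs <;> norm_num
    by_cases hv : ∃ i, v ∈ W i
    swap
    · push Not at hv
      have : (∑ i : Fin a, ∑ j : Fin a, ∑ l : Fin a,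
        if ({i, j, l} : Finset (Fin a)) ∈ K then ((if u ∈ W i then (1 : ℝ) else 0) *
        (if v ∈ W j then 1 else 0) * (if x ∈ W l then 1 else 0)) else 0) = 0 := by
        refine Finset.sum_eq_zero fun i _ => Finset.sum_eq_zero fun j _ =>
          Finset.sum_eq_zero fun l _ => ?_
        rw [if_neg (hv j)]
        simp
      rw [this]
      split_ifs <;> norm_num
    by_cases hx : ∃ i, x ∈ W i
    swap
    · push Not at hx
      have : (∑ i : Fin a, ∑ j : Fin a, ∑ l : Fin a,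
        if ({i, j, l} : Finset (Fin a)) ∈ K then ((if u ∈ W i then (1 : ℝ) else 0) *
        (if v ∈ W j then 1 else 0) * (if x ∈ W l then 1 else 0)) else 0) = 0 := by
        refine Finset.sum_eq_zero fun i _ => Finset.sum_eq_zero fun j _ =>
          Finset.sum_eq_zero fun l _ => ?_
        rw [if_neg (hx l)]
        simp
      rw [this]
      split_ifs <;> norm_num
    obtain ⟨i, hi⟩ := hu
    obtain ⟨j, hj⟩ := hv
    obtain ⟨l, hl⟩ := hx
    have e1 : (∑ i' : Fin a, ∑ j' : Fin a, ∑ l' : Fin a,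
        if ({i', j', l'} : Finset (Fin a)) ∈ K then ((if u ∈ W i' then (1 : ℝ) else 0) *
        (if v ∈ W j' then 1 else 0) * (if x ∈ W l' then 1 else 0)) else 0)
        = if ({i, j, l} : Finset (Fin a)) ∈ K then 1 else 0 := by
      rw [Finset.sum_eq_single i, Finset.sum_eq_single j, Finset.sum_eq_single l]
      · rw [if_pos hi, if_pos hj, if_pos hl]
        norm_num
      · intro l' _ hne'
        rw [if_neg (hWdis l l' hne'.symm x hl)]
        simp
      · intro h; exact absurd (Finset.mem_univ _) h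
      · intro j' _ hne'
        refine Finset.sum_eq_zero fun l' _ => ?_
        rw [if_neg (hWdis j j' hne'.symm v hj)]
        simp
      · intro h; exact absurd (Finset.mem_univ _) h
      · intro i' _ hne'
        refine Finset.sum_eq_zero fun j' _ => Finset.sum_eq_zero fun l' _ => ?_
        rw [if_neg (hWdis i i' hne'.symm u hi)]
        simp
      · intro h; exact absurd (Finset.mem_univ _) h
    rw [e1]
    split_ifs with hk hh
    · exact le_rfl
    · exfalso
      apply hh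
      obtain ⟨hij, hjl, hil⟩ := (card_three_iff i j l).1 (hK.1 _ hk)
      have hf : Emb K H (fun q => if q = i then u else if q = j then v else
          if q = l then x else (hne q).choose) := by
        refine hTR _ fun q => ?_
        by_cases h1 : q = i
        · rw [if_pos h1, h1]; exact hWT i hi
        · rw [if_neg h1]
          by_cases h2 : q = j
          · rw [if_pos h2, h2]; exact hWT j hj
          · rw [if_neg h2]
            by_cases h4 : q = l
            · rw [if_pos h4, h4]; exact hWT l hl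
            · rw [if_neg h4]; exact (hne q).choose_spec
      have h5 := hf _ hk
      rw [Finset.image_insert, Finset.image_insert, Finset.image_singleton] at h5
      simp only [if_true, if_neg hij.symm, if_neg hil.symm, if_neg hjl.symm] at h5
      rw [Finset.mem_filter]
      refine ⟨h5, ?_⟩
      intro y hy
      simp only [Finset.mem_insert, Finset.mem_singleton] at hy
      apply hS0S
      rw [hS0, Finset.mem_biUnion]
      rcases hy with rfl | rfl | rfl
      · exact ⟨i, Finset.mem_univ _, hi⟩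
      · exact ⟨j, Finset.mem_univ _, hj⟩
      · exact ⟨l, Finset.mem_univ _, hl⟩
    · exact zero_le_one
    · exact le_rfl
  refine le_trans (le_of_eq ?_) (Finset.sum_le_sum fun u _ => Finset.sum_le_sum fun v _ =>
    Finset.sum_le_sum fun x _ => hpt u v x)
  -- evaluate the sum
  have hsw : (∑ u : V, ∑ v : V, ∑ x : V, ∑ i : Fin a, ∑ j : Fin a, ∑ l : Fin a,
      if ({i, j, l} : Finset (Fin a)) ∈ K then ((if u ∈ W i then (1 : ℝ) else 0) *
        (if v ∈ W j then 1 else 0) * (if x ∈ W l then 1 else 0)) else 0)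
      = ∑ i : Fin a, ∑ j : Fin a, ∑ l : Fin a,
      if ({i, j, l} : Finset (Fin a)) ∈ K then ((∑ u : V, if u ∈ W i then (1 : ℝ) else 0) *
        (∑ v : V, if v ∈ W j then 1 else 0) * (∑ x : V, if x ∈ W l then 1 else 0)) else 0 := by
    have h4 : ∀ u v : V, (∑ x : V, ∑ i : Fin a, ∑ j : Fin a, ∑ l : Fin a,
      if ({i, j, l} : Finset (Fin a)) ∈ K then ((if u ∈ W i then (1 : ℝ) else 0) *
        (if v ∈ W j then 1 else 0) * (if x ∈ W l then 1 else 0)) else 0)
      = ∑ i : Fin a, ∑ j : Fin a, ∑ l : Fin a,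
      if ({i, j, l} : Finset (Fin a)) ∈ K then ((if u ∈ W i then (1 : ℝ) else 0) *
        (if v ∈ W j then 1 else 0) * (∑ x : V, if x ∈ W l then 1 else 0)) else 0 := by
      intro u v
      rw [Finset.sum_comm]
      refine Finset.sum_congr rfl fun i _ => ?_
      rw [Finset.sum_comm]
      refine Finset.sum_congr rfl fun j _ => ?_
      rw [Finset.sum_comm]
      refine Finset.sum_congr rfl fun l _ => ?_
      split_ifs with h
      all_goals simp [Finset.mul_sum]
    have h5 : ∀ u : V, (∑ v : V, ∑ i : Fin a, ∑ j : Fin a, ∑ l : Fin a,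
      if ({i, j, l} : Finset (Fin a)) ∈ K then ((if u ∈ W i then (1 : ℝ) else 0) *
        (if v ∈ W j then 1 else 0) * (∑ x : V, if x ∈ W l then 1 else 0)) else 0)
      = ∑ i : Fin a, ∑ j : Fin a, ∑ l : Fin a,
      if ({i, j, l} : Finset (Fin a)) ∈ K then ((if u ∈ W i then (1 : ℝ) else 0) *
        (∑ v : V, if v ∈ W j then 1 else 0) * (∑ x : V, if x ∈ W l then 1 else 0)) else 0 := by
      intro u
      rw [Finset.sum_comm]
      refine Finset.sum_congr rfl fun i _ => ?_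
      rw [Finset.sum_comm]
      refine Finset.sum_congr rfl fun j _ => ?_
      rw [Finset.sum_comm]
      refine Finset.sum_congr rfl fun l _ => ?_
      by_cases h : ({i, j, l} : Finset (Fin a)) ∈ K
      · simp only [if_pos h]
        rw [← Finset.sum_mul, ← Finset.mul_sum]
      · simp only [if_neg h, Finset.sum_const_zero]
    simp only [h4, h5]
    rw [Finset.sum_comm]
    refine Finset.sum_congr rfl fun i _ => ?_
    rw [Finset.sum_comm]
    refine Finset.sum_congr rfl fun j _ => ?_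
    rw [Finset.sum_comm]
    refine Finset.sum_congr rfl fun l _ => ?_
    by_cases h : ({i, j, l} : Finset (Fin a)) ∈ K
    · simp only [if_pos h]
      rw [← Finset.sum_mul, ← Finset.sum_mul]
    · simp only [if_neg h, Finset.sum_const_zero]
  rw [hsw]
  have hcW : ∀ i, (∑ u : V, if u ∈ W i then (1 : ℝ) else 0) = (w i : ℝ) * r := by
    intro i
    rw [Finset.sum_ite_mem, Finset.univ_inter, Finset.sum_const, nsmul_eq_mul, mul_one, hWc i]
    push_cast
    rfl
  simp only [hcW]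
  rw [Finset.sum_mul]
  refine Finset.sum_congr rfl fun i _ => ?_
  rw [Finset.sum_mul]
  refine Finset.sum_congr rfl fun j _ => ?_
  rw [Finset.sum_mul]
  refine Finset.sum_congr rfl fun l _ => ?_
  split_ifs
  · ring
  · ring

/-- floor estimate -/
lemma floor_bound (N m : ℕ) (hN : 0 < N) : (m : ℝ) - N ≤ N * ((m / N : ℕ) : ℝ) := by
  have h1 := Nat.div_add_mod m N
  have h2 := Nat.mod_lt m hN
  have h3 : (m : ℝ) = N * ((m / N : ℕ) : ℝ) + ((m % N : ℕ) : ℝ) := by exact_mod_cast h1.symm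
  have h4 : ((m % N : ℕ) : ℝ) ≤ N := by exact_mod_cast h2.le
  linarith

/-- numerical estimate -/
lemma num_bound (N m : ℕ) (hN : 0 < N) (hN25 : N ≤ 25) (hm : 60000 ≤ m) (c : ℝ)
    (hc : 603 / 15625 * (N : ℝ) ^ 3 ≤ c) (hc0 : 0 ≤ c) :
    (1 / 27 + 3 / 2000) * (m : ℝ) ^ 3 ≤ c * ((m / N : ℕ) : ℝ) ^ 3 := by
  have h1 := floor_bound N m hN
  have hm' : (60000 : ℝ) ≤ m := by exact_mod_cast hm
  have hN' : (N : ℝ) ≤ 25 := by exact_mod_cast hN25
  have hNpos : (0 : ℝ) < N := by exact_mod_cast hN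
  have h2 : (m : ℝ) * (1 - 1 / 2400) ≤ N * ((m / N : ℕ) : ℝ) := by linarith
  have h3 : ((m : ℝ) * (1 - 1 / 2400)) ^ 3 ≤ (N * ((m / N : ℕ) : ℝ)) ^ 3 := by
    refine pow_le_pow_left₀ ?_ h2 3
    have : (0 : ℝ) ≤ m := by linarith
    nlinarith
  have h4 : (0 : ℝ) ≤ ((m / N : ℕ) : ℝ) ^ 3 := by positivity
  have h5 : 603 / 15625 * (N * ((m / N : ℕ) : ℝ)) ^ 3 ≤ c * ((m / N : ℕ) : ℝ) ^ 3 := by
    rw [mul_pow, ← mul_assoc]
    exact mul_le_mul_of_nonneg_right hc h4
  have h6 : (1 / 27 + 3 / 2000) * (m : ℝ) ^ 3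
      ≤ 603 / 15625 * ((m : ℝ) * (1 - 1 / 2400)) ^ 3 := by
    rw [mul_pow]
    have : (0 : ℝ) ≤ (m : ℝ) ^ 3 := by positivity
    nlinarith
  linarith

lemma triangles_irrefl (D : V → V → Prop) :
    triangles (fun u v => D u v ∧ u ≠ v) = triangles D := by
  classical
  ext e
  unfold triangles
  simp only [Finset.mem_filter, Finset.mem_univ, true_and]
  constructor
  · rintro ⟨h3, u, v, w, rfl, h1, h2, h4⟩
    exact ⟨h3, u, v, w, rfl, h1.1, h2.1, h4.1⟩
  · rintro ⟨h3, u, v, w, rfl, h1, h2, h4⟩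
    have hd := (card_three_iff u v w).1 h3
    exact ⟨h3, u, v, w, rfl, ⟨h1, hd.1⟩, ⟨h2, hd.2.1⟩, ⟨h4, hd.2.2.symm⟩⟩

end

/-- pattern of positive density gives a dense `m`-set -/
lemma finish {a : ℕ} (K : Finset (Finset (Fin a))) (hK : Good K) (w : Fin a → ℕ) (N : ℕ)
    (hwN : ∑ i, w i = N) (hN : 0 < N) (hN25 : N ≤ 25)
    (hval : 6 * (603 / 15625 * (N : ℝ) ^ 3) ≤ ∑ i : Fin a, ∑ j : Fin a, ∑ l : Fin a,
      if ({i, j, l} : Finset (Fin a)) ∈ K then (w i : ℝ) * w j * w l else 0)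
    (δ : ℝ) (hδ : 0 < δ) (m : ℕ) (hm : 60000 ≤ m) :
    ∃ n0 : ℕ, ∀ (V : Type) [Fintype V] [DecidableEq V] (H : Finset (Finset V)),
      (∀ e ∈ H, e.card = 3) → n0 < Fintype.card V →
      δ * (Fintype.card V : ℝ) ^ a ≤
        ((Finset.univ.filter (fun h : Fin a → V => Emb K H h)).card : ℝ) →
      ∃ S : Finset V, S.card = m ∧
        (1 / 27 + 3 / 2000) * (m : ℝ) ^ 3 ≤ ((H.filter (fun e => e ⊆ S)).card : ℝ) := by
  obtain ⟨n0, hn0⟩ := blowup a m δ hδ
  refine ⟨max n0 m, fun V _ _ H hH hn hden => ?_⟩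
  obtain ⟨T, hT, hTR⟩ := hn0 V (fun h => Emb K H h) (lt_of_le_of_lt (le_max_left _ _) hn) hden
  obtain ⟨S, hS, hcount⟩ := build K hK w H hH T m (m / N) hT
    (by rw [hwN]; exact Nat.mul_div_le m N) (by omega)
    (le_trans (le_max_right _ _) hn.le) hTR
  refine ⟨S, hS, ?_⟩
  set c : ℝ := ∑ i : Fin a, ∑ j : Fin a, ∑ l : Fin a,
      if ({i, j, l} : Finset (Fin a)) ∈ K then (w i : ℝ) * w j * w l else 0 with hc
  have hc0 : 0 ≤ c := by
    refine le_trans ?_ hval
    positivity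
  have h1 := num_bound N m hN hN25 hm (c / 6) (by linarith) (by linarith)
  have h2 : c / 6 * ((m / N : ℕ) : ℝ) ^ 3 ≤ ((H.filter (fun e => e ⊆ S)).card : ℝ) := by
    linarith
  exact h1.trans h2

/-- **Q1 for 3-graphs of directed triangles.** -/
theorem q1 : ∀ ε : ℝ, 0 < ε → ∀ m : ℕ, 60000 ≤ m → ∃ n0 : ℕ, ∀ n : ℕ, n0 < n →
    ∀ D : Fin n → Fin n → Prop, (1 / 27 + ε) * (n : ℝ) ^ 3 ≤ ((triangles D).card : ℝ) →
      ∃ S : Finset (Fin n), S.card = m ∧
        (1 / 27 + 3 / 2000) * (m : ℝ) ^ 3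
          ≤ (((triangles D).filter (fun e => e ⊆ S)).card : ℝ) := by
  intro ε hε m hm
  obtain ⟨k0, hk0⟩ := exists_nat_gt (3 * (1 / 27 + ε) / (ε / 2))
  set k := max k0 7 with hk
  have hk7 : 7 ≤ k := le_max_right _ _
  have hkε : 3 * (1 / 27 + ε) ≤ ε / 2 * k := by
    have h1 : 3 * (1 / 27 + ε) / (ε / 2) < (k : ℝ) := by
      refine hk0.trans_le ?_
      exact_mod_cast le_max_left k0 7
    rw [div_lt_iff₀ (by positivity)] at h1
    linarith
  have hkpos : (0 : ℝ) < (k : ℝ) := by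
    have : 0 < k := by omega
    exact_mod_cast this
  have hδ : 0 < ε / 2 / (k : ℝ) ^ 7 := by positivity
  obtain ⟨n4, h4⟩ := finish P4 good4 ![3, 2, 2, 2] 9 (by decide) (by norm_num)
    (by norm_num)
    (by
      have h1 : (∑ i : Fin 4, ∑ j : Fin 4, ∑ l : Fin 4,
        if ({i, j, l} : Finset (Fin 4)) ∈ P4 then ((![3, 2, 2, 2] : Fin 4 → ℕ) i) *
          (![3, 2, 2, 2] : Fin 4 → ℕ) j * (![3, 2, 2, 2] : Fin 4 → ℕ) l else 0) = 216 := by
        decide +kernel
      have h2 : (∑ i : Fin 4, ∑ j : Fin 4, ∑ l : Fin 4,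
        if ({i, j, l} : Finset (Fin 4)) ∈ P4 then (((![3, 2, 2, 2] : Fin 4 → ℕ) i : ℕ) : ℝ) *
          ((![3, 2, 2, 2] : Fin 4 → ℕ) j : ℕ) * ((![3, 2, 2, 2] : Fin 4 → ℕ) l : ℕ) else 0)
          = ((216 : ℕ) : ℝ) := by
        rw [← h1]
        push_cast
        rfl
      rw [h2]
      norm_num) _ hδ m hm
  obtain ⟨n5, h5⟩ := finish P5 good5 ![3, 3, 3, 8, 8] 25 (by decide) (by norm_num)
    (by norm_num)
    (by
      have h1 : (∑ i : Fin 5, ∑ j : Fin 5, ∑ l : Fin 5,
        if ({i, j, l} : Finset (Fin 5)) ∈ P5 then ((![3, 3, 3, 8, 8] : Fin 5 → ℕ) i) *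
          (![3, 3, 3, 8, 8] : Fin 5 → ℕ) j * (![3, 3, 3, 8, 8] : Fin 5 → ℕ) l else 0) = 3618 := by
        decide +kernel
      have h2 : (∑ i : Fin 5, ∑ j : Fin 5, ∑ l : Fin 5,
        if ({i, j, l} : Finset (Fin 5)) ∈ P5 then (((![3, 3, 3, 8, 8] : Fin 5 → ℕ) i : ℕ) : ℝ) *
          ((![3, 3, 3, 8, 8] : Fin 5 → ℕ) j : ℕ) * ((![3, 3, 3, 8, 8] : Fin 5 → ℕ) l : ℕ) else 0)
          = ((3618 : ℕ) : ℝ) := by
        rw [← h1]
        push_cast
        rfl
      rw [h2]
      norm_num) _ hδ m hm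
  obtain ⟨nC, hC⟩ := finish C5 goodC ![1, 1, 1, 1, 1] 5 (by decide) (by norm_num)
    (by norm_num)
    (by
      have h1 : (∑ i : Fin 5, ∑ j : Fin 5, ∑ l : Fin 5,
        if ({i, j, l} : Finset (Fin 5)) ∈ C5 then ((![1, 1, 1, 1, 1] : Fin 5 → ℕ) i) *
          (![1, 1, 1, 1, 1] : Fin 5 → ℕ) j * (![1, 1, 1, 1, 1] : Fin 5 → ℕ) l else 0) = 30 := by
        decide +kernel
      have h2 : (∑ i : Fin 5, ∑ j : Fin 5, ∑ l : Fin 5,
        if ({i, j, l} : Finset (Fin 5)) ∈ C5 then (((![1, 1, 1, 1, 1] : Fin 5 → ℕ) i : ℕ) : ℝ) *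
          ((![1, 1, 1, 1, 1] : Fin 5 → ℕ) j : ℕ) * ((![1, 1, 1, 1, 1] : Fin 5 → ℕ) l : ℕ) else 0)
          = ((30 : ℕ) : ℝ) := by
        rw [← h1]
        push_cast
        rfl
      rw [h2]
      norm_num) _ hδ m hm
  obtain ⟨n7, h7⟩ := finish P7 good7 ![1, 1, 1, 1, 1, 1, 1] 7 (by decide) (by norm_num)
    (by norm_num)
    (by
      have h1 : (∑ i : Fin 7, ∑ j : Fin 7, ∑ l : Fin 7,
        if ({i, j, l} : Finset (Fin 7)) ∈ P7 then ((![1, 1, 1, 1, 1, 1, 1] : Fin 7 → ℕ) i) *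
          (![1, 1, 1, 1, 1, 1, 1] : Fin 7 → ℕ) j * (![1, 1, 1, 1, 1, 1, 1] : Fin 7 → ℕ) l else 0) = 84 := by
        decide +kernel
      have h2 : (∑ i : Fin 7, ∑ j : Fin 7, ∑ l : Fin 7,
        if ({i, j, l} : Finset (Fin 7)) ∈ P7 then (((![1, 1, 1, 1, 1, 1, 1] : Fin 7 → ℕ) i : ℕ) : ℝ) *
          ((![1, 1, 1, 1, 1, 1, 1] : Fin 7 → ℕ) j : ℕ) * ((![1, 1, 1, 1, 1, 1, 1] : Fin 7 → ℕ) l : ℕ) else 0)
          = ((84 : ℕ) : ℝ) := by
        rw [← h1]
        push_cast
        rfl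
      rw [h2]
      norm_num) _ hδ m hm
  refine ⟨max (max n4 n5) (max nC n7), fun n hn D hD => ?_⟩
  have b4 : n4 < n := lt_of_le_of_lt ((le_max_left _ _).trans (le_max_left _ _)) hn
  have b5 : n5 < n := lt_of_le_of_lt ((le_max_right _ _).trans (le_max_left _ _)) hn
  have bC : nC < n := lt_of_le_of_lt ((le_max_left _ _).trans (le_max_right _ _)) hn
  have b7 : n7 < n := lt_of_le_of_lt ((le_max_right _ _).trans (le_max_right _ _)) hn
  have hD' : triangles (fun u v => D u v ∧ u ≠ v) = triangles D := triangles_irrefl D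
  rw [← hD'] at hD ⊢
  have hdens := pattern_density (V := Fin n) (D := fun u v => D u v ∧ u ≠ v)
    (fun u h => h.2 rfl) ε hε k hk7 hkε (by rw [Fintype.card_fin]; omega)
    (by rw [Fintype.card_fin]; exact hD)
  rcases hdens with ⟨K, rfl, h⟩ | ⟨K, rfl | rfl, h⟩ | ⟨K, rfl, h⟩
  · exact h4 (Fin n) _ triangles_card (by rw [Fintype.card_fin]; exact b4) h
  · exact h5 (Fin n) _ triangles_card (by rw [Fintype.card_fin]; exact b5) h
  · exact hC (Fin n) _ triangles_card (by rw [Fintype.card_fin]; exact bC) h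
  · exact h7 (Fin n) _ triangles_card (by rw [Fintype.card_fin]; exact b7) h

end Pool.Agent.Lib.MP_bc13a4_co.Tri
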