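import Mathlib

set_option autoImplicit false

namespace Pool.Agent.Lib.MP_bc13a4_co.Tri

open Finset

/-- counting extensions of a function along an injection -/
lemma card_comp_eq {ι κ V : Type*} [Fintype ι] [Fintype κ] [Fintype V] [DecidableEq κ]
    [DecidableEq V] [DecidableEq ι] (f : ι → κ) (hf : Function.Injective f) (h : ι → V) :
    (Finset.univ.filter (fun g : κ → V => g ∘ f = h)).card
      = Fintype.card V ^ (Fintype.card κ - Fintype.card ι) := by
  classical
  have key : Finset.univ.filter (fun g : κ → V => g ∘ f = h)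
      = Fintype.piFinset (fun c : κ => if hc : ∃ i, f i = c then {h hc.choose}
          else (Finset.univ : Finset V)) := by
    ext g
    simp only [Finset.mem_filter, Finset.mem_univ, true_and, Fintype.mem_piFinset]
    constructor
    · rintro rfl c
      split_ifs with hc
      · rw [Finset.mem_singleton, Function.comp_apply, hc.choose_spec]
      · exact Finset.mem_univ _
    · intro hg
      funext i
      have hi := hg (f i)
      have hex : ∃ j, f j = f i := ⟨i, rfl⟩
      rw [dif_pos hex, Finset.mem_singleton] at hi
      rw [Function.comp_apply, hi]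
      congr 1
      exact hf hex.choose_spec
  rw [key, Fintype.card_piFinset]
  have h1 : ∀ c : κ, (if hc : ∃ i, f i = c then {h hc.choose}
      else (Finset.univ : Finset V)).card = if c ∈ Finset.univ.image f then 1
        else Fintype.card V := by
    intro c
    by_cases hc : ∃ i, f i = c
    · have : c ∈ Finset.univ.image f := by
        obtain ⟨i, rfl⟩ := hc
        simp
      rw [dif_pos hc, if_pos this, Finset.card_singleton]
    · have : c ∉ Finset.univ.image f := by
        intro h2
        simp only [Finset.mem_image, Finset.mem_univ, true_and] at h2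
        exact hc h2
      rw [dif_neg hc, if_neg this, Finset.card_univ]
  rw [Finset.prod_congr rfl fun c _ => h1 c, Finset.prod_ite]
  simp only [Finset.prod_const_one, Finset.prod_const, one_mul]
  congr 1
  have h2 : (Finset.univ.filter (fun c => c ∉ Finset.univ.image f))
      = Finset.univ \ Finset.univ.image f := by
    ext c
    simp
  rw [h2, Finset.card_sdiff_of_subset (Finset.subset_univ _), Finset.card_univ,
    Finset.card_image_of_injective _ hf, Finset.card_univ]

/-- summation along an injection -/
lemma sum_comp_eq {ι κ V : Type*} [Fintype ι] [Fintype κ] [Fintype V] [DecidableEq κ]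
    [DecidableEq V] [DecidableEq ι] (f : ι → κ) (hf : Function.Injective f)
    (F : (ι → V) → ℝ) :
    ∑ g : κ → V, F (g ∘ f)
      = (Fintype.card V : ℝ) ^ (Fintype.card κ - Fintype.card ι) * ∑ h : ι → V, F h := by
  classical
  rw [← Finset.sum_fiberwise_of_maps_to (g := fun g : κ → V => g ∘ f)
    (t := (Finset.univ : Finset (ι → V))) (fun _ _ => Finset.mem_univ _), Finset.mul_sum]
  refine Finset.sum_congr rfl fun h _ => ?_
  have : ∀ g ∈ Finset.univ.filter (fun g : κ → V => g ∘ f = h), F (g ∘ f) = F h := by
    intro g hg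
    rw [(Finset.mem_filter.1 hg).2]
  rw [Finset.sum_congr rfl this, Finset.sum_const, card_comp_eq f hf h, nsmul_eq_mul]
  push_cast
  ring

/-- non-injective tuples are rare -/
lemma card_not_injective (V : Type*) [Fintype V] [DecidableEq V] (t : ℕ) :
    ((Finset.univ.filter (fun s : Fin t → V => ¬ Function.Injective s)).card : ℝ)
      * (Fintype.card V : ℝ) ≤ (t : ℝ) ^ 2 * (Fintype.card V : ℝ) ^ t := by
  classical
  have h1 : Finset.univ.filter (fun s : Fin t → V => ¬ Function.Injective s)
      ⊆ (Finset.univ : Finset (Fin t × Fin t)).biUnion (fun p =>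
        if p.1 = p.2 then ∅ else Finset.univ.filter (fun s : Fin t → V => s p.1 = s p.2)) := by
    intro s hs
    simp only [Finset.mem_filter, Finset.mem_univ, true_and, Function.Injective] at hs
    push Not at hs
    obtain ⟨a, b, hab, hne⟩ := hs
    rw [Finset.mem_biUnion]
    refine ⟨(a, b), Finset.mem_univ _, ?_⟩
    rw [if_neg hne]
    simp [hab]
  have h2 : ∀ p : Fin t × Fin t, ((if p.1 = p.2 then (∅ : Finset (Fin t → V)) else
      Finset.univ.filter (fun s : Fin t → V => s p.1 = s p.2)).card : ℝ) * (Fintype.card V : ℝ)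
        ≤ (Fintype.card V : ℝ) ^ t := by
    intro p
    by_cases hp : p.1 = p.2
    · rw [if_pos hp]
      simp
    · rw [if_neg hp]
      have hinj : Function.Injective (![p.1, p.2] : Fin 2 → Fin t) := by
        intro i j hij
        fin_cases i <;> fin_cases j <;> simp_all
      have h3 := sum_comp_eq (V := V) (![p.1, p.2] : Fin 2 → Fin t) hinj
        (fun h => if h 0 = h 1 then 1 else 0)
      have h4 : ∑ g : Fin t → V, (if (g ∘ ![p.1, p.2]) 0 = (g ∘ ![p.1, p.2]) 1 then (1 : ℝ)
          else 0) = ((Finset.univ.filter (fun s : Fin t → V => s p.1 = s p.2)).card : ℝ) := by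
        rw [Finset.sum_ite, Finset.sum_const, Finset.sum_const_zero, add_zero, nsmul_eq_mul,
          mul_one]
        rfl
      have h5 : ∑ h : Fin 2 → V, (if h 0 = h 1 then (1 : ℝ) else 0) = Fintype.card V := by
        rw [Finset.sum_ite, Finset.sum_const, Finset.sum_const_zero, add_zero, nsmul_eq_mul,
          mul_one]
        have : (Finset.univ.filter (fun h : Fin 2 → V => h 0 = h 1))
            = Finset.univ.image (fun v : V => (fun _ : Fin 2 => v)) := by
          ext h
          simp only [Finset.mem_filter, Finset.mem_univ, true_and, Finset.mem_image]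
          constructor
          · intro hh
            refine ⟨h 0, ?_⟩
            funext i
            fin_cases i
            · rfl
            · exact hh
          · rintro ⟨v, rfl⟩
            rfl
        rw [this, Finset.card_image_of_injective, Finset.card_univ]
        intro a b hab
        exact congrFun hab 0
      rw [h4, h5] at h3
      rw [h3]
      have ht : 2 ≤ t := by
        have h6 := Fintype.card_le_of_injective _ hinj
        simpa using h6
      simp only [Fintype.card_fin]
      have h7 : (Fintype.card V : ℝ) ^ (t - 2) * (Fintype.card V : ℝ) * (Fintype.card V : ℝ)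
          = (Fintype.card V : ℝ) ^ t := by
        rw [mul_assoc, ← sq, ← pow_add]
        congr 1
        omega
      rw [h7]
  have h3 := Finset.card_le_card h1
  have h4 := h3.trans Finset.card_biUnion_le
  have h5 : ((Finset.univ.filter (fun s : Fin t → V => ¬ Function.Injective s)).card : ℝ)
      ≤ ∑ p : Fin t × Fin t, ((if p.1 = p.2 then (∅ : Finset (Fin t → V)) else
      Finset.univ.filter (fun s : Fin t → V => s p.1 = s p.2)).card : ℝ) := by
    exact_mod_cast h4
  calc ((Finset.univ.filter (fun s : Fin t → V => ¬ Function.Injective s)).card : ℝ)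
      * (Fintype.card V : ℝ)
      ≤ (∑ p : Fin t × Fin t, ((if p.1 = p.2 then (∅ : Finset (Fin t → V)) else
      Finset.univ.filter (fun s : Fin t → V => s p.1 = s p.2)).card : ℝ))
        * (Fintype.card V : ℝ) := mul_le_mul_of_nonneg_right h5 (by positivity)
    _ = ∑ p : Fin t × Fin t, ((if p.1 = p.2 then (∅ : Finset (Fin t → V)) else
      Finset.univ.filter (fun s : Fin t → V => s p.1 = s p.2)).card : ℝ)
        * (Fintype.card V : ℝ) := Finset.sum_mul _ _ _
    _ ≤ ∑ _p : Fin t × Fin t, (Fintype.card V : ℝ) ^ t := Finset.sum_le_sum fun p _ => h2 p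
    _ = (t : ℝ) ^ 2 * (Fintype.card V : ℝ) ^ t := by
        rw [Finset.sum_const, Finset.card_univ, nsmul_eq_mul]
        simp only [Fintype.card_prod, Fintype.card_fin]
        push_cast
        ring

/-- **Blow-up lemma** (Erdos): a `k`-ary relation of positive density contains a complete
`k`-partite one. -/
theorem blowup (k : ℕ) : ∀ (t : ℕ) (δ : ℝ), 0 < δ → ∃ n0 : ℕ, ∀ (V : Type) [Fintype V]
    [DecidableEq V] (R : (Fin k → V) → Prop) [DecidablePred R], n0 < Fintype.card V →
    δ * (Fintype.card V : ℝ) ^ k ≤ ((Finset.univ.filter R).card : ℝ) →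
    ∃ T : Fin k → Finset V, (∀ i, (T i).card = t) ∧ ∀ f : Fin k → V, (∀ i, f i ∈ T i) → R f := by
  induction k with
  | zero =>
    intro t δ hδ
    refine ⟨0, fun V _ _ R _ hn hR => ⟨fun i => i.elim0, fun i => i.elim0, fun f _ => ?_⟩⟩
    rw [pow_zero, mul_one] at hR
    have h1 : (0 : ℝ) < ((Finset.univ.filter R).card : ℝ) := lt_of_lt_of_le hδ hR
    have h2 : 0 < (Finset.univ.filter R).card := by exact_mod_cast h1
    obtain ⟨g, hg⟩ := Finset.card_pos.1 h2
    have h3 : g = f := funext fun i => i.elim0
    rw [← h3]
    exact (Finset.mem_filter.1 hg).2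
  | succ k ih =>
    intro t δ hδ
    rcases Nat.eq_zero_or_pos t with ht0 | htpos
    · refine ⟨0, fun V _ _ R _ _ _ => ⟨fun _ => ∅, fun _ => by simp [ht0], fun f hf => ?_⟩⟩
      exact absurd (hf 0) (Finset.notMem_empty _)
    have hδt : 0 < δ ^ t / 2 := by positivity
    obtain ⟨n1, hn1⟩ := ih t (δ ^ t / 2) hδt
    obtain ⟨n2, hn2⟩ := exists_nat_gt (2 * (t : ℝ) ^ 2 / δ ^ t)
    refine ⟨max n1 n2, fun V _ _ R _ hn hR => ?_⟩
    classical
    set n : ℝ := (Fintype.card V : ℝ) with hndef
    have hn0 : 0 < Fintype.card V := lt_of_le_of_lt (Nat.zero_le _) hn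
    have hnpos : 0 < n := by rw [hndef]; exact_mod_cast hn0
    have hnn2 : 2 * (t : ℝ) ^ 2 / δ ^ t < n := by
      refine hn2.trans ?_
      rw [hndef]
      exact_mod_cast lt_of_le_of_lt (le_max_right _ _) hn
    -- degrees
    set deg : (Fin k → V) → ℝ := fun f =>
      ∑ v : V, if R (Fin.cons v f) then (1 : ℝ) else 0 with hdeg
    have hdeg0 : ∀ f, 0 ≤ deg f := fun f => by
      rw [hdeg]
      exact Finset.sum_nonneg fun v _ => by split_ifs <;> norm_num
    have hdegsum : ∑ f : Fin k → V, deg f = ((Finset.univ.filter R).card : ℝ) := by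
      have h1 : ((Finset.univ.filter R).card : ℝ)
          = ∑ g : Fin (k + 1) → V, if R g then (1 : ℝ) else 0 := by
        rw [Finset.sum_ite, Finset.sum_const, Finset.sum_const_zero, add_zero, nsmul_eq_mul,
          mul_one]
      rw [h1, hdeg, Finset.sum_comm]
      rw [← (Fin.consEquiv (fun _ : Fin (k + 1) => V)).sum_comp
        (fun g : Fin (k + 1) → V => if R g then (1 : ℝ) else 0), Fintype.sum_prod_type]
      rfl
    -- power mean
    have hpow : (∑ f : Fin k → V, deg f) ^ t ≤ (n ^ k) ^ (t - 1) * ∑ f : Fin k → V, deg f ^ t := by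
      obtain ⟨s, rfl⟩ : ∃ s, t = s + 1 := ⟨t - 1, by omega⟩
      have h2 := pow_sum_le_card_mul_sum_pow (s := (Finset.univ : Finset (Fin k → V)))
        (f := deg) (fun f _ => hdeg0 f) s
      have hcard : ((Finset.univ : Finset (Fin k → V)).card : ℝ) = n ^ k := by
        rw [Finset.card_univ, Fintype.card_fun, Fintype.card_fin, hndef]
        push_cast
        rfl
      rw [hcard] at h2
      simpa only [Nat.add_sub_cancel] using h2
    -- expansion over tuples
    have hexp : ∑ f : Fin k → V, deg f ^ t
        = ∑ s : Fin t → V, ∑ f : Fin k → V,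
            if ∀ j, R (Fin.cons (s j) f) then (1 : ℝ) else 0 := by
      rw [Finset.sum_comm]
      refine Finset.sum_congr rfl fun f _ => ?_
      rw [hdeg]
      simp only
      rw [Fintype.sum_pow]
      refine Finset.sum_congr rfl fun s _ => ?_
      rw [Finset.prod_ite_zero]
      simp
    set N : (Fin t → V) → ℝ := fun s => ∑ f : Fin k → V,
            if ∀ j, R (Fin.cons (s j) f) then (1 : ℝ) else 0 with hN
    have hNle : ∀ s, N s ≤ n ^ k := by
      intro s
      rw [hN]
      refine (Finset.sum_le_sum (g := fun _ => (1 : ℝ)) fun f _ => by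
        split_ifs <;> norm_num).trans ?_
      rw [Finset.sum_const, Finset.card_univ, nsmul_eq_mul, mul_one, Fintype.card_fun,
        Fintype.card_fin, hndef]
      push_cast
      exact le_rfl
    have hlow : δ ^ t * n ^ (t + k) ≤ ∑ s : Fin t → V, N s := by
      rw [← hexp]
      have h1 : (δ * n ^ (k + 1)) ^ t ≤ (n ^ k) ^ (t - 1) * ∑ f : Fin k → V, deg f ^ t := by
        refine le_trans ?_ hpow
        rw [hdegsum]
        exact pow_le_pow_left₀ (by positivity) hR t
      have h2 : (n ^ k) ^ (t - 1) * (δ ^ t * n ^ (t + k)) = (δ * n ^ (k + 1)) ^ t := by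
        obtain ⟨s, rfl⟩ : ∃ s, t = s + 1 := ⟨t - 1, by omega⟩
        simp only [Nat.add_sub_cancel]
        rw [mul_pow]
        ring
      rw [← h2] at h1
      exact le_of_mul_le_mul_left h1 (by positivity)
    obtain ⟨s, hs, hNs⟩ : ∃ s : Fin t → V, Function.Injective s ∧ δ ^ t / 2 * n ^ k ≤ N s := by
      by_contra hcon
      push Not at hcon
      have h1 : ∑ s : Fin t → V, N s ≤ ∑ s : Fin t → V, (δ ^ t / 2 * n ^ k +
          (if Function.Injective s then 0 else n ^ k)) := by
        refine Finset.sum_le_sum fun s _ => ?_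
        split_ifs with hs
        · have := hcon s hs
          linarith
        · have := hNle s
          have h3 : 0 ≤ δ ^ t / 2 * n ^ k := by positivity
          linarith
      rw [Finset.sum_add_distrib, Finset.sum_const, Finset.card_univ, Fintype.card_fun,
        Fintype.card_fin, nsmul_eq_mul] at h1
      have h2 : ∑ s : Fin t → V, (if Function.Injective s then (0 : ℝ) else n ^ k)
          = ((Finset.univ.filter (fun s : Fin t → V => ¬ Function.Injective s)).card : ℝ)
            * n ^ k := by
        rw [Finset.sum_ite, Finset.sum_const_zero, Finset.sum_const, zero_add, nsmul_eq_mul]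
      rw [h2] at h1
      have h3 := card_not_injective V t
      rw [← hndef] at h3
      have h4 : (t : ℝ) ^ 2 < δ ^ t / 2 * n := by
        rw [div_lt_iff₀ (by positivity)] at hnn2
        linarith
      have h5 : ((Finset.univ.filter (fun s : Fin t → V => ¬ Function.Injective s)).card : ℝ)
          < δ ^ t / 2 * n ^ t := by
        have h6 : (t : ℝ) ^ 2 * n ^ t < δ ^ t / 2 * n ^ t * n := by
          have := mul_lt_mul_of_pos_right h4 (show (0 : ℝ) < n ^ t by positivity)
          linarith
        exact lt_of_mul_lt_mul_right (lt_of_le_of_lt h3 h6) hnpos.le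
      have h7 := mul_lt_mul_of_pos_right h5 (show (0 : ℝ) < n ^ k by positivity)
      have h8 : n ^ (t + k) = n ^ t * n ^ k := pow_add _ _ _
      rw [h8] at hlow
      have h9 : ((Fintype.card V ^ t : ℕ) : ℝ) = n ^ t := by
        rw [hndef]
        push_cast
        rfl
      rw [h9] at h1
      nlinarith
    have hcount : N s = ((Finset.univ.filter
        (fun f : Fin k → V => ∀ j, R (Fin.cons (s j) f))).card : ℝ) := by
      rw [hN]
      simp only
      rw [Finset.sum_ite, Finset.sum_const, Finset.sum_const_zero, add_zero, nsmul_eq_mul,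
        mul_one]
    obtain ⟨T, hT, hTR⟩ := hn1 V (fun f : Fin k → V => ∀ j, R (Fin.cons (s j) f))
      (lt_of_le_of_lt (le_max_left _ _) hn) (by rw [← hcount]; exact hNs)
    refine ⟨Fin.cons (Finset.univ.image s) T, ?_, ?_⟩
    · intro i
      refine Fin.cases ?_ (fun i => ?_) i
      · rw [Fin.cons_zero, Finset.card_image_of_injective _ hs, Finset.card_univ,
          Fintype.card_fin]
      · rw [Fin.cons_succ]
        exact hT i
    · intro f hf
      have h0 := hf 0
      rw [Fin.cons_zero, Finset.mem_image] at h0
      obtain ⟨j, -, hj⟩ := h0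
      have h1 := hTR (fun i => f i.succ) (fun i => by
        have := hf i.succ
        rwa [Fin.cons_succ] at this) j
      have h2 : (Fin.cons (s j) (fun i : Fin k => f i.succ) : Fin (k + 1) → V) = f := by
        rw [hj]
        exact Fin.cons_self_tail f
      rwa [h2] at h1

end Pool.Agent.Lib.MP_bc13a4_co.Tri
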