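import Pool.Agent.Lib.MP_bc13a4_co.Tri.Cert1
import Pool.Agent.Lib.MP_bc13a4_co.Tri.Cert2

set_option autoImplicit false

namespace Pool.Agent.Lib.MP_bc13a4_co.Tri

variable {V : Type*} {S : V → Prop} {D : V → V → Prop}

lemma E_irrefl_iff {u v w : V} : E (fun a b => D a b ∧ a ≠ b) u v w ↔ E D u v w := by
  unfold E
  constructor
  · rintro ⟨h, ⟨h1, h2, h3⟩ | ⟨h1, h2, h3⟩⟩
    · exact ⟨h, Or.inl ⟨h1.1, h2.1, h3.1⟩⟩
    · exact ⟨h, Or.inr ⟨h1.1, h2.1, h3.1⟩⟩
  · rintro ⟨h, ⟨h1, h2, h3⟩ | ⟨h1, h2, h3⟩⟩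
    · exact ⟨h, Or.inl ⟨⟨h1, h.1⟩, ⟨h2, h.2.1⟩, ⟨h3, h.2.2.symm⟩⟩⟩
    · exact ⟨h, Or.inr ⟨⟨h1, h.1.symm⟩, ⟨h2, h.2.1.symm⟩, ⟨h3, h.2.2⟩⟩⟩

lemma hyp_irrefl (H : Hyp S D) : Hyp S (fun a b => D a b ∧ a ≠ b) := by
  have e : ∀ u v w : V, E (fun a b => D a b ∧ a ≠ b) u v w ↔ E D u v w :=
    fun u v w => E_irrefl_iff
  refine ⟨?_, ?_, ?_, ?_, ?_, ?_⟩
  · intro u v hu hv huv
    obtain ⟨w, hw, h⟩ := H.cover u v hu hv huv
    exact ⟨w, hw, (e _ _ _).2 h⟩
  · intro a b c ha hb hc h
    obtain ⟨z, hz, z1, z2, z3, n1, n2, n3⟩ := H.undom a b c ha hb hc ((e _ _ _).1 h)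
    exact ⟨z, hz, z1, z2, z3, fun h => n1 ((e _ _ _).1 h), fun h => n2 ((e _ _ _).1 h),
      fun h => n3 ((e _ _ _).1 h)⟩
  · intro d p q r
    simp only [e]
    exact H.four d p q r
  · intro s t p q r
    simp only [e]
    exact H.five s t p q r
  · intro a b c d f
    simp only [e]
    exact H.cyc a b c d f
  · intro f
    simp only [e]
    exact H.pal f

/-- three vertices as a sequence -/
def seq3 (a b c : V) : Nat → V := fun i => if i = 0 then a else if i = 1 then b else c

lemma inv_start1 {a b c : V} (ha : S a) (hb : S b) (hc : S c) (hab : a ≠ b) (hbc : b ≠ c)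
    (hac : a ≠ c) (h1 : D a b) (h2 : D b a) (h3 : D b c) (h4 : D c a) :
    Inv S D 3 4295294978 0 [] (seq3 a b c) := by
  refine ⟨by norm_num, ?_, ?_, ?_, ?_, ?_⟩
  · intro i hi
    interval_cases i
    · exact ha
    · exact hb
    · exact hc
  · intro i hi j hj hij
    interval_cases i <;> interval_cases j <;> first
      | exact absurd rfl hij
      | exact hab
      | exact hbc
      | exact hac
      | exact hab.symm
      | exact hbc.symm
      | exact hac.symm
  · intro i hi j hj hij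
    interval_cases i <;> interval_cases j <;> first
      | exact h1
      | exact h2
      | exact h3
      | exact h4
      | exact absurd hij (by decide)
  · intro i hi j hj hij
    simp at hij
  · intro z a b c h
    simp [memU] at h

lemma inv_start2 {a b c : V} (ha : S a) (hb : S b) (hc : S c) (hab : a ≠ b) (hbc : b ≠ c)
    (hac : a ≠ c) (h1 : D a b) (h2 : D b c) (h3 : D c a) (n1 : ¬ D b a) (n2 : ¬ D c b)
    (n3 : ¬ D a c) :
    Inv S D 3 4295229442 8590000132 [] (seq3 a b c) := by
  refine ⟨by norm_num, ?_, ?_, ?_, ?_, ?_⟩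
  · intro i hi
    interval_cases i
    · exact ha
    · exact hb
    · exact hc
  · intro i hi j hj hij
    interval_cases i <;> interval_cases j <;> first
      | exact absurd rfl hij
      | exact hab
      | exact hbc
      | exact hac
      | exact hab.symm
      | exact hbc.symm
      | exact hac.symm
  · intro i hi j hj hij
    interval_cases i <;> interval_cases j <;> first
      | exact h1
      | exact h2
      | exact h3
      | exact absurd hij (by decide)
  · intro i hi j hj hij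
    interval_cases i <;> interval_cases j <;> first
      | exact n1
      | exact n2
      | exact n3
      | exact absurd hij (by decide)
  · intro z a b c h
    simp [memU] at h

lemma low_zero (k : Nat) : Low k 0 := by
  intro i j _ h
  simp at h

lemma low_start (P : Nat) (hP : P < 2 ^ 48)
    (h : ∀ i < 3, ∀ j < 16, P.testBit (16 * i + j) = true → j < 3) : Low 3 P := by
  intro i j hj hb
  have hi : i < 3 := by
    by_contra hi
    have : P < 2 ^ (16 * i + j) := lt_of_lt_of_le hP (Nat.pow_le_pow_right (by norm_num)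
      (by omega))
    rw [Nat.testBit_lt_two_pow this] at hb
    exact Bool.noConfusion hb
  exact ⟨hi, h i hi j hj hb⟩

/-- **Combinatorial core.**  A pair-covering set without dominating edge and without the
configurations has at most one vertex. -/
theorem core (H : Hyp S D) : ∀ u v, S u → S v → u = v := by
  intro u0 v0 hu0 hv0
  by_contra hne0
  set D' : V → V → Prop := fun a b => D a b ∧ a ≠ b with hD'
  have H' : Hyp S D' := hyp_irrefl H
  have hirr : ∀ u, ¬ D' u u := fun u h => h.2 rfl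
  have two : ∀ u v, S u → S v → D' u v → ¬ D' v u := by
    intro u v hu hv h1 h2
    have huv : u ≠ v := h1.2
    obtain ⟨w, hw, ⟨-, hvw, huw⟩, h⟩ := H'.cover u v hu hv huv
    have l1 : Low 3 4295294978 := low_start _ (by norm_num) (by decide)
    rcases h with ⟨-, h3, h4⟩ | ⟨-, h3, h4⟩
    · exact sound H' hirr false (by simp) cert1 3 4295294978 0 [] (seq3 u v w) cert1_ok
        (inv_start1 hu hv hw huv hvw huw h1 h2 h3 h4) l1 (low_zero 3)
    · exact sound H' hirr false (by simp) cert1 3 4295294978 0 [] (seq3 v u w) cert1_ok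
        (inv_start1 hv hu hw huv.symm huw hvw h2 h1 h4 h3) l1 (low_zero 3)
  obtain ⟨w, hw, ⟨huv, hvw, huw⟩, h⟩ := H'.cover u0 v0 hu0 hv0 hne0
  have l1 : Low 3 4295229442 := low_start _ (by norm_num) (by decide)
  have l2 : Low 3 8590000132 := low_start _ (by norm_num) (by decide)
  rcases h with ⟨h1, h2, h3⟩ | ⟨h1, h2, h3⟩
  · exact sound H' hirr true (fun _ => two) cert2 3 4295229442 8590000132 []
      (seq3 u0 v0 w) cert2_ok
      (inv_start2 hu0 hv0 hw huv hvw huw h1 h2 h3 (two _ _ hu0 hv0 h1) (two _ _ hv0 hw h2)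
        (two _ _ hw hu0 h3)) l1 l2
  · exact sound H' hirr true (fun _ => two) cert2 3 4295229442 8590000132 []
      (seq3 v0 u0 w) cert2_ok
      (inv_start2 hv0 hu0 hw huv.symm huw hvw h1 h3 h2 (two _ _ hv0 hu0 h1)
        (two _ _ hu0 hw h3) (two _ _ hw hv0 h2)) l1 l2

end Pool.Agent.Lib.MP_bc13a4_co.Tri
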