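import Pool.Agent.Lib.MP_bc13a4_co.Tri.Gap
import Pool.Agent.Lib.MP_bc13a4_co.Tri.Blow

set_option autoImplicit false

namespace Pool.Agent.Lib.MP_bc13a4_co.Tri

open Finset Dom

/-- number of ordered triples forming an edge -/
noncomputable def oc {V : Type*} [Fintype V] [DecidableEq V] (H : Finset (Finset V)) : ℝ :=
  ∑ u : V, ∑ v : V, ∑ w : V, if ({u, v, w} : Finset V) ∈ H then (1 : ℝ) else 0

section

variable {V : Type*} [Fintype V] [DecidableEq V]

lemma six (a b c : V) (hab : a ≠ b) (hbc : b ≠ c) (hac : a ≠ c) :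
    ((Finset.univ : Finset (V × V × V)).filter
      (fun p => ({p.1, p.2.1, p.2.2} : Finset V) = {a, b, c})).card = 6 := by
  have h1 : (Finset.univ : Finset (V × V × V)).filter
      (fun p => ({p.1, p.2.1, p.2.2} : Finset V) = {a, b, c})
      = {(a, b, c), (a, c, b), (b, a, c), (b, c, a), (c, a, b), (c, b, a)} := by
    ext ⟨u, v, w⟩
    simp only [Finset.mem_filter, Finset.mem_univ, true_and, Finset.mem_insert,
      Finset.mem_singleton, Prod.mk.injEq]
    constructor
    · intro h
      have hu : u ∈ ({a, b, c} : Finset V) := by rw [← h]; simp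
      have hv : v ∈ ({a, b, c} : Finset V) := by rw [← h]; simp
      have hw : w ∈ ({a, b, c} : Finset V) := by rw [← h]; simp
      have hd : u ≠ v ∧ v ≠ w ∧ u ≠ w := by
        rw [← card_three_iff, h, card_three_iff]
        exact ⟨hab, hbc, hac⟩
      obtain ⟨k1, k2, k3⟩ := hd
      simp only [Finset.mem_insert, Finset.mem_singleton] at hu hv hw
      rcases hu with rfl | rfl | rfl <;> rcases hv with rfl | rfl | rfl <;>
        rcases hw with rfl | rfl | rfl <;> first
        | exact absurd rfl k1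
        | exact absurd rfl k2
        | exact absurd rfl k3
        | tauto
    · rintro (⟨rfl, rfl, rfl⟩ | ⟨rfl, rfl, rfl⟩ | ⟨rfl, rfl, rfl⟩ | ⟨rfl, rfl, rfl⟩ |
        ⟨rfl, rfl, rfl⟩ | ⟨rfl, rfl, rfl⟩)
      all_goals first
        | rfl
        | (ext y
           simp only [Finset.mem_insert, Finset.mem_singleton]
           tauto)
  rw [h1]
  rw [Finset.card_insert_of_notMem, Finset.card_insert_of_notMem, Finset.card_insert_of_notMem,
    Finset.card_insert_of_notMem, Finset.card_insert_of_notMem, Finset.card_singleton]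
  all_goals
    simp only [Finset.mem_insert, Finset.mem_singleton, Prod.mk.injEq, not_or, not_and]
    tauto

lemma oc_eq (H : Finset (Finset V)) (hH : ∀ e ∈ H, e.card = 3) : oc H = 6 * (H.card : ℝ) := by
  have h1 : oc H = ∑ p : V × V × V,
      if ({p.1, p.2.1, p.2.2} : Finset V) ∈ H then (1 : ℝ) else 0 := by
    unfold oc
    rw [Fintype.sum_prod_type]
    refine Finset.sum_congr rfl fun u _ => ?_
    rw [Fintype.sum_prod_type]
  have h2 : ∀ p : V × V × V, (if ({p.1, p.2.1, p.2.2} : Finset V) ∈ H then (1 : ℝ) else 0)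
      = ∑ e ∈ H, if ({p.1, p.2.1, p.2.2} : Finset V) = e then (1 : ℝ) else 0 := by
    intro p
    rw [Finset.sum_ite_eq]
  rw [h1, Finset.sum_congr rfl fun p _ => h2 p, Finset.sum_comm]
  have h3 : ∀ e ∈ H, (∑ p : V × V × V, if ({p.1, p.2.1, p.2.2} : Finset V) = e then (1 : ℝ)
      else 0) = 6 := by
    intro e he
    obtain ⟨a, b, c, hab, hac, hbc, rfl⟩ := Finset.card_eq_three.1 (hH e he)
    rw [Finset.sum_ite, Finset.sum_const, Finset.sum_const_zero, add_zero, nsmul_eq_mul,
      mul_one, six a b c hab hbc hac]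
    norm_num
  rw [Finset.sum_congr rfl h3, Finset.sum_const, nsmul_eq_mul]
  ring

lemma oc_lagr (H : Finset (Finset V)) (hV : 0 < Fintype.card V) :
    oc H = 6 * (Fintype.card V : ℝ) ^ 3 * lagr H (fun _ => 1 / (Fintype.card V : ℝ)) := by
  have hn : (0 : ℝ) < (Fintype.card V : ℝ) := by exact_mod_cast hV
  unfold oc lagr
  have h1 : ∀ u v w : V, (if ({u, v, w} : Finset V) ∈ H then
      1 / (Fintype.card V : ℝ) * (1 / (Fintype.card V : ℝ)) * (1 / (Fintype.card V : ℝ)) else 0)
      = (1 / (Fintype.card V : ℝ)) ^ 3 * (if ({u, v, w} : Finset V) ∈ H then (1 : ℝ) else 0) := by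
    intro u v w
    split_ifs
    · ring
    · ring
  simp only [h1, ← Finset.mul_sum]
  field_simp

lemma oc_le (H : Finset (Finset V)) : oc H ≤ (Fintype.card V : ℝ) ^ 3 := by
  unfold oc
  have h1 : ∀ u v : V, (∑ w : V, if ({u, v, w} : Finset V) ∈ H then (1 : ℝ) else 0)
      ≤ (Fintype.card V : ℝ) := by
    intro u v
    refine (Finset.sum_le_sum (g := fun _ => (1 : ℝ)) fun w _ => by
      split_ifs <;> norm_num).trans ?_
    simp
  have h2 : ∀ u : V, (∑ v : V, ∑ w : V, if ({u, v, w} : Finset V) ∈ H then (1 : ℝ) else 0)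
      ≤ (Fintype.card V : ℝ) ^ 2 := by
    intro u
    refine (Finset.sum_le_sum fun v _ => h1 u v).trans ?_
    simp [sq]
  refine (Finset.sum_le_sum fun u _ => h2 u).trans ?_
  rw [Finset.sum_const, Finset.card_univ, nsmul_eq_mul]
  ring_nf
  exact le_rfl

end

/-- pull-back of a relation -/
def pull {κ V : Type*} (D : V → V → Prop) (g : κ → V) : κ → κ → Prop := fun i j => D (g i) (g j)

section

variable {V : Type} [Fintype V] [DecidableEq V] {D : V → V → Prop}

lemma mem_pull {κ : Type*} [Fintype κ] [DecidableEq κ] (hD : ∀ u, ¬ D u u) (g : κ → V)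
    (i j l : κ) : ({i, j, l} : Finset κ) ∈ triangles (pull D g) ↔
      (i ≠ j ∧ j ≠ l ∧ i ≠ l) ∧ ({g i, g j, g l} : Finset V) ∈ triangles D := by
  rw [mem_triangles, mem_triangles]
  unfold E pull
  constructor
  · rintro ⟨h, h1⟩
    refine ⟨h, ⟨?_, ?_, ?_⟩, h1⟩
    · intro he
      rcases h1 with ⟨a, b, c⟩ | ⟨a, b, c⟩
      · rw [he] at a; exact hD _ a
      · rw [he] at a; exact hD _ a
    · intro he
      rcases h1 with ⟨a, b, c⟩ | ⟨a, b, c⟩
      · rw [he] at b; exact hD _ b
      · rw [he] at b; exact hD _ b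
    · intro he
      rcases h1 with ⟨a, b, c⟩ | ⟨a, b, c⟩
      · rw [he] at c; exact hD _ c
      · rw [he] at c; exact hD _ c
  · rintro ⟨h, h1⟩
    exact ⟨h, h1.2⟩

lemma sum_oc_pull (hD : ∀ u, ¬ D u u) (k : ℕ) :
    ((k : ℝ) ^ 3 - 3 * (k : ℝ) ^ 2) * ((Fintype.card V : ℝ) ^ (k - 3) * oc (triangles D))
      ≤ ∑ g : Fin k → V, oc (triangles (pull D g)) := by
  classical
  have hswap : ∑ g : Fin k → V, oc (triangles (pull D g))
      = ∑ i : Fin k, ∑ j : Fin k, ∑ l : Fin k, ∑ g : Fin k → V,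
        if ({i, j, l} : Finset (Fin k)) ∈ triangles (pull D g) then (1 : ℝ) else 0 := by
    unfold oc
    rw [Finset.sum_comm]
    refine Finset.sum_congr rfl fun i _ => ?_
    rw [Finset.sum_comm]
    refine Finset.sum_congr rfl fun j _ => ?_
    rw [Finset.sum_comm]
  set A : ℝ := (Fintype.card V : ℝ) ^ (k - 3) * oc (triangles D) with hA
  have hA0 : 0 ≤ A := by
    rw [hA]
    refine mul_nonneg (by positivity) ?_
    unfold oc
    exact Finset.sum_nonneg fun u _ => Finset.sum_nonneg fun v _ => Finset.sum_nonneg fun w _ =>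
      by split_ifs <;> norm_num
  have hterm : ∀ i j l : Fin k, (1 - (if i = j then (1 : ℝ) else 0) - (if j = l then 1 else 0)
      - (if i = l then 1 else 0)) * A ≤ ∑ g : Fin k → V,
        if ({i, j, l} : Finset (Fin k)) ∈ triangles (pull D g) then (1 : ℝ) else 0 := by
    intro i j l
    have hnn : (0 : ℝ) ≤ ∑ g : Fin k → V,
        if ({i, j, l} : Finset (Fin k)) ∈ triangles (pull D g) then (1 : ℝ) else 0 :=
      Finset.sum_nonneg fun g _ => by split_ifs <;> norm_num
    by_cases h1 : i = j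
    · refine le_trans ?_ hnn
      rw [if_pos h1]
      refine mul_nonpos_of_nonpos_of_nonneg ?_ hA0
      split_ifs <;> norm_num
    by_cases h2 : j = l
    · refine le_trans ?_ hnn
      rw [if_pos h2]
      refine mul_nonpos_of_nonpos_of_nonneg ?_ hA0
      split_ifs <;> norm_num
    by_cases h3 : i = l
    · refine le_trans ?_ hnn
      rw [if_pos h3]
      refine mul_nonpos_of_nonpos_of_nonneg ?_ hA0
      split_ifs <;> norm_num
    rw [if_neg h1, if_neg h2, if_neg h3]
    have hinj : Function.Injective (![i, j, l] : Fin 3 → Fin k) := by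
      intro a b hab
      fin_cases a <;> fin_cases b <;> simp_all
    have h4 := sum_comp_eq (V := V) (![i, j, l] : Fin 3 → Fin k) hinj
      (fun h => if ({h 0, h 1, h 2} : Finset V) ∈ triangles D then 1 else 0)
    have h5 : ∀ g : Fin k → V, (if ({i, j, l} : Finset (Fin k)) ∈ triangles (pull D g) then
        (1 : ℝ) else 0) = (if ({(g ∘ ![i, j, l]) 0, (g ∘ ![i, j, l]) 1, (g ∘ ![i, j, l]) 2} :
          Finset V) ∈ triangles D then 1 else 0) := by
      intro g
      have h6 := mem_pull hD g i j l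
      by_cases h7 : ({g i, g j, g l} : Finset V) ∈ triangles D
      · rw [if_pos (h6.2 ⟨⟨h1, h2, h3⟩, h7⟩)]
        exact (if_pos h7).symm
      · rw [if_neg (fun h => h7 (h6.1 h).2)]
        exact (if_neg h7).symm
    rw [Finset.sum_congr rfl fun g _ => h5 g, h4]
    have h6 : (∑ h : Fin 3 → V, if ({h 0, h 1, h 2} : Finset V) ∈ triangles D then (1 : ℝ)
        else 0) = oc (triangles D) := by
      unfold oc
      rw [← (Fin.consEquiv (fun _ : Fin 3 => V)).sum_comp
        (fun h : Fin 3 → V => if ({h 0, h 1, h 2} : Finset V) ∈ triangles D then (1 : ℝ)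
        else 0), Fintype.sum_prod_type]
      refine Finset.sum_congr rfl fun u _ => ?_
      rw [← (Fin.consEquiv (fun _ : Fin 2 => V)).sum_comp, Fintype.sum_prod_type]
      refine Finset.sum_congr rfl fun v _ => ?_
      rw [← (Equiv.funUnique (Fin 1) V).symm.sum_comp]
      rfl
    rw [h6]
    simp only [Fintype.card_fin, sub_zero, one_mul]
    exact le_of_eq hA
  rw [hswap]
  have hsum : ((k : ℝ) ^ 3 - 3 * (k : ℝ) ^ 2) * A
      = ∑ i : Fin k, ∑ j : Fin k, ∑ l : Fin k,
        (1 - (if i = j then (1 : ℝ) else 0) - (if j = l then 1 else 0)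
          - (if i = l then 1 else 0)) * A := by
    have s1 : ∑ i : Fin k, ∑ j : Fin k, ∑ _l : Fin k, (if i = j then (1 : ℝ) else 0)
        = (k : ℝ) ^ 2 := by
      simp only [Finset.sum_const, Finset.card_univ, Fintype.card_fin, nsmul_eq_mul,
        ← Finset.mul_sum, Finset.sum_ite_eq, Finset.mem_univ, if_true, mul_one]
      ring
    have s2 : ∑ _i : Fin k, ∑ j : Fin k, ∑ l : Fin k, (if j = l then (1 : ℝ) else 0)
        = (k : ℝ) ^ 2 := by
      simp only [Finset.sum_const, Finset.card_univ, Fintype.card_fin, nsmul_eq_mul,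
        Finset.sum_ite_eq, Finset.mem_univ, if_true, mul_one]
      ring
    have s3 : ∑ i : Fin k, ∑ _j : Fin k, ∑ l : Fin k, (if i = l then (1 : ℝ) else 0)
        = (k : ℝ) ^ 2 := by
      simp only [Finset.sum_const, Finset.card_univ, Fintype.card_fin, nsmul_eq_mul,
        Finset.sum_ite_eq, Finset.mem_univ, if_true, mul_one]
      ring
    have s0 : ∑ _i : Fin k, ∑ _j : Fin k, ∑ _l : Fin k, (1 : ℝ) = (k : ℝ) ^ 3 := by
      simp only [Finset.sum_const, Finset.card_univ, Fintype.card_fin, nsmul_eq_mul, mul_one]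
      ring
    simp only [← Finset.sum_mul, Finset.sum_sub_distrib, s0, s1, s2, s3]
    ring
  rw [hsum]
  exact Finset.sum_le_sum fun i _ => Finset.sum_le_sum fun j _ => Finset.sum_le_sum fun l _ =>
    hterm i j l

end

end Pool.Agent.Lib.MP_bc13a4_co.Tri
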