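import Mathlib

set_option autoImplicit false

namespace Pool.Agent.Lib.MP_bc13a4_co.Dom

open Finset

variable {V : Type*} [Fintype V] [DecidableEq V]

/-- The trilinear form of a 3-graph. -/
noncomputable def tri (H : Finset (Finset V)) (x y z : V → ℝ) : ℝ :=
  ∑ u, ∑ v, ∑ w, if ({u, v, w} : Finset V) ∈ H then x u * y v * z w else 0

/-- The Lagrangian polynomial `∑ x u * x v * x w` over the edges `{u,v,w}` of `H`
(each edge is counted six times among the ordered triples). -/
noncomputable def lagr (H : Finset (Finset V)) (x : V → ℝ) : ℝ :=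
  (∑ u, ∑ v, ∑ w, if ({u, v, w} : Finset V) ∈ H then x u * x v * x w else 0) / 6

/-- Probability weights on the vertex set. -/
def IsWeight (x : V → ℝ) : Prop := (∀ v, 0 ≤ x v) ∧ ∑ v, x v = 1

/-- `v` is dominated by the edge `{a,b,c}`: it is one of `a,b,c` or forms an edge with two of them. -/
def Dominated (H : Finset (Finset V)) (a b c v : V) : Prop :=
  v ∈ ({a, b, c} : Finset V) ∨ {v, b, c} ∈ H ∨ {a, v, c} ∈ H ∨ {a, b, v} ∈ H

lemma lagr_eq (H : Finset (Finset V)) (x : V → ℝ) : lagr H x = tri H x x x / 6 := rfl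

lemma tri_add_left (H : Finset (Finset V)) (x x' y z : V → ℝ) (s t : ℝ) :
    tri H (fun v => s * x v + t * x' v) y z = s * tri H x y z + t * tri H x' y z := by
  simp only [tri, Finset.mul_sum, ← Finset.sum_add_distrib]
  refine Finset.sum_congr rfl fun u _ => Finset.sum_congr rfl fun v _ =>
    Finset.sum_congr rfl fun w _ => ?_
  split_ifs <;> ring

lemma tri_comm12 (H : Finset (Finset V)) (x y z : V → ℝ) : tri H x y z = tri H y x z := by
  unfold tri
  rw [Finset.sum_comm]
  refine Finset.sum_congr rfl fun u _ => Finset.sum_congr rfl fun v _ =>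
    Finset.sum_congr rfl fun w _ => ?_
  have h : ({v, u, w} : Finset V) = {u, v, w} := Finset.insert_comm _ _ _
  rw [h]
  split_ifs <;> ring

lemma tri_comm23 (H : Finset (Finset V)) (x y z : V → ℝ) : tri H x y z = tri H x z y := by
  unfold tri
  refine Finset.sum_congr rfl fun u _ => ?_
  rw [Finset.sum_comm]
  refine Finset.sum_congr rfl fun v _ => Finset.sum_congr rfl fun w _ => ?_
  have h : ({u, w, v} : Finset V) = {u, v, w} := by
    rw [Finset.pair_comm w v]
  rw [h]
  split_ifs <;> ring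

lemma tri_add_mid (H : Finset (Finset V)) (x y y' z : V → ℝ) (s t : ℝ) :
    tri H x (fun v => s * y v + t * y' v) z = s * tri H x y z + t * tri H x y' z := by
  rw [tri_comm12, tri_add_left, tri_comm12 H y, tri_comm12 H y']

lemma tri_add_right (H : Finset (Finset V)) (x y z z' : V → ℝ) (s t : ℝ) :
    tri H x y (fun v => s * z v + t * z' v) = s * tri H x y z + t * tri H x y z' := by
  rw [tri_comm23, tri_add_mid, tri_comm23 H x z, tri_comm23 H x z']

/-- the point mass -/
def pt (a : V) : V → ℝ := fun v => if v = a then 1 else 0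

lemma tri_pt (H : Finset (Finset V)) (a : V) (y z : V → ℝ) :
    tri H (pt a) y z = ∑ v, ∑ w, if ({a, v, w} : Finset V) ∈ H then y v * z w else 0 := by
  unfold tri pt
  rw [Finset.sum_eq_single a]
  · refine Finset.sum_congr rfl fun v _ => Finset.sum_congr rfl fun w _ => ?_
    simp
  · intro b _ hb
    refine Finset.sum_eq_zero fun v _ => Finset.sum_eq_zero fun w _ => ?_
    simp [hb]
  · intro h
    exact absurd (Finset.mem_univ a) h

omit [Fintype V] in
lemma pair_not_card (H : Finset (Finset V)) (hH : ∀ e ∈ H, e.card = 3) (a v : V) :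
    ({a, a, v} : Finset V) ∉ H := by
  intro h
  have h1 := hH _ h
  rw [Finset.insert_eq_of_mem (by simp)] at h1
  have h2 : ({a, v} : Finset V).card ≤ 2 := Finset.card_le_two
  omega

/-- `tri H (pt a) (pt a) z = 0` for a 3-graph. -/
lemma tri_pt_pt (H : Finset (Finset V)) (hH : ∀ e ∈ H, e.card = 3) (a : V) (z : V → ℝ) :
    tri H (pt a) (pt a) z = 0 := by
  rw [tri_pt]
  refine Finset.sum_eq_zero fun v _ => Finset.sum_eq_zero fun w _ => ?_
  by_cases hv : v = a
  · subst hv
    rw [if_neg (pair_not_card H hH v w)]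
  · simp [pt, hv]

/-- expansion along the line through `x` and the vertex `a` -/
lemma tri_line (H : Finset (Finset V)) (hH : ∀ e ∈ H, e.card = 3) (a : V) (x : V → ℝ) (s : ℝ) :
    tri H (fun v => (1 + s) * x v + (-s) * pt a v) (fun v => (1 + s) * x v + (-s) * pt a v)
      (fun v => (1 + s) * x v + (-s) * pt a v)
      = (1 + s) ^ 3 * tri H x x x - 3 * s * (1 + s) ^ 2 * tri H (pt a) x x := by
  simp only [tri_add_left, tri_add_mid, tri_add_right]
  have h1 : tri H (pt a) (pt a) (pt a) = 0 := tri_pt_pt H hH a _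
  have h2 : tri H (pt a) (pt a) x = 0 := tri_pt_pt H hH a _
  have h3 : tri H (pt a) x (pt a) = 0 := by rw [tri_comm23]; exact h2
  have h4 : tri H x (pt a) (pt a) = 0 := by rw [tri_comm12]; exact h3
  have h5 : tri H x x (pt a) = tri H (pt a) x x := by rw [tri_comm23, tri_comm12]
  have h6 : tri H x (pt a) x = tri H (pt a) x x := by rw [tri_comm12]
  rw [h1, h2, h3, h4, h5, h6]
  ring

/-- Lagrange condition at a maximizer. -/
lemma lagrange (H : Finset (Finset V)) (hH : ∀ e ∈ H, e.card = 3) (x : V → ℝ)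
    (hx : IsWeight x) (hmax : ∀ y : V → ℝ, IsWeight y → lagr H y ≤ lagr H x) (a : V)
    (ha : 0 < x a) : tri H x x x ≤ tri H (pt a) x x := by
  by_contra hlt
  rw [not_le] at hlt
  set L := tri H x x x with hL
  set G := tri H (pt a) x x with hG
  have hG0 : 0 ≤ G := by
    rw [hG, tri_pt]
    refine Finset.sum_nonneg fun v _ => Finset.sum_nonneg fun w _ => ?_
    split_ifs
    · exact mul_nonneg (hx.1 v) (hx.1 w)
    · exact le_rfl
  -- for small s>0 the shifted point is a weight
  have key : ∀ s : ℝ, 0 < s → s ≤ x a → (1 + s) ^ 3 * L - 3 * s * (1 + s) ^ 2 * G ≤ L := by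
    intro s hs hsa
    have hy : IsWeight (fun v => (1 + s) * x v + (-s) * pt a v) := by
      refine ⟨fun v => ?_, ?_⟩
      · have := hx.1 v
        by_cases hv : v = a
        · subst hv
          simp only [pt, if_true]
          nlinarith
        · simp only [pt, if_neg hv]
          nlinarith
      · rw [Finset.sum_add_distrib, ← Finset.mul_sum, ← Finset.mul_sum, hx.2]
        simp [pt]
    have h1 := hmax _ hy
    rw [lagr_eq, lagr_eq, tri_line H hH] at h1
    linarith
  -- contradiction for small s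
  have hLG : 0 < L - G := by linarith
  set s := min (x a) ((L - G) / (L - G + 2 * G + 1)) with hs
  have hd : 0 < L - G + 2 * G + 1 := by linarith
  have hspos : 0 < s := lt_min ha (div_pos hLG hd)
  have hsle : s ≤ (L - G) / (L - G + 2 * G + 1) := min_le_right _ _
  have hs2 : s * (L - G + 2 * G + 1) ≤ L - G := by
    rw [le_div_iff₀ hd] at hsle
    exact hsle
  have h1 := key s hspos (min_le_left _ _)
  -- (1+s)^3 L - 3 s (1+s)^2 G - L = s(3(L-G)) + s^2 (3L - 6G) + s^3 (L - 3G)
  have hs1 : s ≤ 1 := by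
    have : s * (L - G + 2 * G + 1) ≤ L - G := hs2
    by_contra hc
    rw [not_le] at hc
    nlinarith
  nlinarith [mul_pos hspos hLG, mul_pos hspos hspos, mul_nonneg hspos.le hG0,
    mul_nonneg (mul_pos hspos hspos).le hG0, mul_pos (mul_pos hspos hspos) hspos,
    mul_nonneg (mul_pos (mul_pos hspos hspos) hspos).le hG0]

/-- Lower bound for the Lagrangian from a small configuration. -/
lemma lagr_ge {n : ℕ} (H : Finset (Finset V)) (p : Fin n → V) (t : Fin n → ℝ)
    (ht : ∀ i, 0 ≤ t i) (K : Finset (Finset (Fin n))) (hK : ∀ e ∈ K, e.image p ∈ H) :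
    (∑ i, ∑ j, ∑ k, if ({i, j, k} : Finset (Fin n)) ∈ K then t i * t j * t k else 0) / 6
      ≤ lagr H (fun v => ∑ i, t i * pt (p i) v) := by
  have expand : ∀ (s : Finset (Fin n)) (y z : V → ℝ),
      tri H (fun v => ∑ i ∈ s, t i * pt (p i) v) y z = ∑ i ∈ s, t i * tri H (pt (p i)) y z := by
    intro s y z
    induction s using Finset.induction_on with
    | empty =>
      simp [tri]
    | insert i s hi ih =>
      have h1 : (fun v => ∑ j ∈ insert i s, t j * pt (p j) v)
          = fun v => t i * pt (p i) v + 1 * (∑ j ∈ s, t j * pt (p j) v) := by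
        funext v
        rw [Finset.sum_insert hi, one_mul]
      rw [h1, tri_add_left, ih, Finset.sum_insert hi, one_mul]
  have hval : tri H (fun v => ∑ i, t i * pt (p i) v) (fun v => ∑ i, t i * pt (p i) v)
      (fun v => ∑ i, t i * pt (p i) v)
      = ∑ i, ∑ j, ∑ k, t i * t j * t k *
          (if ({p i, p j, p k} : Finset V) ∈ H then 1 else 0) := by
    rw [expand Finset.univ]
    refine Finset.sum_congr rfl fun i _ => ?_
    rw [tri_comm12, expand Finset.univ, Finset.mul_sum]
    refine Finset.sum_congr rfl fun j _ => ?_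
    rw [tri_comm23, tri_comm12, expand Finset.univ, Finset.mul_sum, Finset.mul_sum]
    refine Finset.sum_congr rfl fun k _ => ?_
    rw [tri_pt]
    have h2 : (∑ v, ∑ w, if ({p k, v, w} : Finset V) ∈ H then pt (p j) v * pt (p i) w else 0)
        = if ({p i, p j, p k} : Finset V) ∈ H then 1 else 0 := by
      rw [Finset.sum_eq_single (p j), Finset.sum_eq_single (p i)]
      · have h3 : ({p k, p j, p i} : Finset V) = {p i, p j, p k} := by
          ext v
          simp only [Finset.mem_insert, Finset.mem_singleton]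
          tauto
        rw [h3]
        simp [pt]
      · intro b _ hb
        simp [pt, hb]
      · intro h
        exact absurd (Finset.mem_univ _) h
      · intro b _ hb
        refine Finset.sum_eq_zero fun w _ => ?_
        simp [pt, hb]
      · intro h
        exact absurd (Finset.mem_univ _) h
    rw [h2]
    ring
  rw [lagr_eq, hval]
  refine div_le_div_of_nonneg_right ?_ (by norm_num)
  refine Finset.sum_le_sum fun i _ => Finset.sum_le_sum fun j _ => Finset.sum_le_sum fun k _ => ?_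
  have hpos : 0 ≤ t i * t j * t k := mul_nonneg (mul_nonneg (ht i) (ht j)) (ht k)
  by_cases hk : ({i, j, k} : Finset (Fin n)) ∈ K
  · have h4 := hK _ hk
    rw [Finset.image_insert, Finset.image_insert, Finset.image_singleton] at h4
    rw [if_pos hk, if_pos h4, mul_one]
  · rw [if_neg hk]
    split_ifs
    · linarith
    · linarith

lemma isWeight_sum {n : ℕ} (p : Fin n → V) (t : Fin n → ℝ) (ht : ∀ i, 0 ≤ t i)
    (hs : ∑ i, t i = 1) : IsWeight (fun v => ∑ i, t i * pt (p i) v) := by
  refine ⟨fun v => Finset.sum_nonneg fun i _ => mul_nonneg (ht i) ?_, ?_⟩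
  · unfold pt
    split_ifs <;> norm_num
  · rw [Finset.sum_comm]
    rw [← hs]
    refine Finset.sum_congr rfl fun i _ => ?_
    rw [← Finset.mul_sum]
    simp [pt]

/-- A configuration contained in `H` bounds the Lagrangian from below. -/
lemma conf {n : ℕ} (H : Finset (Finset V)) (x : V → ℝ)
    (hmax : ∀ y : V → ℝ, IsWeight y → lagr H y ≤ lagr H x) (p : Fin n → V) (q : Fin n → ℚ)
    (hq : ∀ i, 0 ≤ q i) (hs : ∑ i, q i = 1) (K : Finset (Finset (Fin n)))
    (hK : ∀ e ∈ K, e.image p ∈ H) (c : ℚ)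
    (hc : (∑ i, ∑ j, ∑ k, if ({i, j, k} : Finset (Fin n)) ∈ K then q i * q j * q k else 0)
      = 6 * c) : (c : ℝ) ≤ lagr H x := by
  have hq' : ∀ i, (0 : ℝ) ≤ (q i : ℝ) := fun i => by exact_mod_cast hq i
  have hs' : ∑ i, (q i : ℝ) = 1 := by exact_mod_cast hs
  have h1 := lagr_ge H p (fun i => (q i : ℝ)) hq' K hK
  have h2 := hmax _ (isWeight_sum p (fun i => (q i : ℝ)) hq' hs')
  have h3 : (∑ i, ∑ j, ∑ k, if ({i, j, k} : Finset (Fin n)) ∈ K then
      (q i : ℝ) * (q j : ℝ) * (q k : ℝ) else 0) = ((6 * c : ℚ) : ℝ) := by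
    rw [← hc]
    push_cast
    refine Finset.sum_congr rfl fun i _ => Finset.sum_congr rfl fun j _ =>
      Finset.sum_congr rfl fun k _ => ?_
    split_ifs <;> simp
  rw [h3] at h1
  push_cast at h1
  linarith

/-- no 4-vertex configuration with three edges -/
lemma four (H : Finset (Finset V)) (x : V → ℝ)
    (hmax : ∀ y : V → ℝ, IsWeight y → lagr H y ≤ lagr H x) (hlt : lagr H x < 1 / 27 + 3 / 2000)
    (d p q r : V) (h1 : ({d, p, q} : Finset V) ∈ H) (h2 : ({d, p, r} : Finset V) ∈ H)
    (h3 : ({d, q, r} : Finset V) ∈ H) : False := by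
  have hv := conf H x hmax ![d, p, q, r] ![1/3, 2/9, 2/9, 2/9] (by decide +kernel)
    (by decide +kernel) {{0, 1, 2}, {0, 1, 3}, {0, 2, 3}} (by
      intro e he
      simp only [Finset.mem_insert, Finset.mem_singleton] at he
      rcases he with rfl | rfl | rfl
      · simpa [Finset.image_insert] using h1
      · simpa [Finset.image_insert] using h2
      · simpa [Finset.image_insert] using h3) (4/81) (by decide +kernel)
  norm_num at hv
  linarith

/-- no configuration `{p,q,r}` together with `{p,s,t}, {q,s,t}, {r,s,t}` -/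
lemma fiveF (H : Finset (Finset V)) (x : V → ℝ)
    (hmax : ∀ y : V → ℝ, IsWeight y → lagr H y ≤ lagr H x) (hlt : lagr H x < 1 / 27 + 3 / 2000)
    (p q r s t : V) (h1 : ({p, q, r} : Finset V) ∈ H) (h2 : ({p, s, t} : Finset V) ∈ H)
    (h3 : ({q, s, t} : Finset V) ∈ H) (h4 : ({r, s, t} : Finset V) ∈ H) : False := by
  have hv := conf H x hmax ![p, q, r, s, t] ![3/25, 3/25, 3/25, 8/25, 8/25] (by decide +kernel)
    (by decide +kernel) {{0, 1, 2}, {0, 3, 4}, {1, 3, 4}, {2, 3, 4}} (by
      intro e he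
      simp only [Finset.mem_insert, Finset.mem_singleton] at he
      rcases he with rfl | rfl | rfl | rfl
      · simpa [Finset.image_insert] using h1
      · simpa [Finset.image_insert] using h2
      · simpa [Finset.image_insert] using h3
      · simpa [Finset.image_insert] using h4) (603/15625) (by decide +kernel)
  norm_num at hv
  linarith

/-- no configuration `{a,b,c}, {v,b,c}, {a,w,c}, {a,v,w}, {b,v,w}` -/
lemma fiveC (H : Finset (Finset V)) (x : V → ℝ)
    (hmax : ∀ y : V → ℝ, IsWeight y → lagr H y ≤ lagr H x) (hlt : lagr H x < 1 / 27 + 3 / 2000)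
    (a b c v w : V) (h1 : ({a, b, c} : Finset V) ∈ H) (h2 : ({v, b, c} : Finset V) ∈ H)
    (h3 : ({a, w, c} : Finset V) ∈ H) (h4 : ({a, v, w} : Finset V) ∈ H)
    (h5 : ({b, v, w} : Finset V) ∈ H) : False := by
  have hv := conf H x hmax ![a, b, c, v, w] ![1/5, 1/5, 1/5, 1/5, 1/5] (by decide +kernel)
    (by decide +kernel) {{0, 1, 2}, {3, 1, 2}, {0, 4, 2}, {0, 3, 4}, {1, 3, 4}} (by
      intro e he
      simp only [Finset.mem_insert, Finset.mem_singleton] at he
      rcases he with rfl | rfl | rfl | rfl | rfl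
      · simpa [Finset.image_insert] using h1
      · simpa [Finset.image_insert] using h2
      · simpa [Finset.image_insert] using h3
      · simpa [Finset.image_insert] using h4
      · simpa [Finset.image_insert] using h5) (1/25) (by decide +kernel)
  norm_num at hv
  linarith



/-- No four vertices with three edges at one of them, no `{p,q,r}` with `{p,s,t}, {q,s,t},
{r,s,t}` and no tight five-cycle. -/
structure Free3 (H : Finset (Finset V)) : Prop where
  four : ∀ d p q r : V, ({d, p, q} : Finset V) ∈ H → ({d, p, r} : Finset V) ∈ H →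
    ({d, q, r} : Finset V) ∈ H → False
  fiveF : ∀ p q r s t : V, ({p, q, r} : Finset V) ∈ H → ({p, s, t} : Finset V) ∈ H →
    ({q, s, t} : Finset V) ∈ H → ({r, s, t} : Finset V) ∈ H → False
  fiveC : ∀ a b c v w : V, ({a, b, c} : Finset V) ∈ H → ({v, b, c} : Finset V) ∈ H →
    ({a, w, c} : Finset V) ∈ H → ({a, v, w} : Finset V) ∈ H →
    ({b, v, w} : Finset V) ∈ H → False

lemma free3_of_lt (H : Finset (Finset V)) (x : V → ℝ)
    (hmax : ∀ y : V → ℝ, IsWeight y → lagr H y ≤ lagr H x) (hlt : lagr H x < 1 / 27 + 3 / 2000) :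
    Free3 H := ⟨four H x hmax hlt, fiveF H x hmax hlt, fiveC H x hmax hlt⟩


lemma le_one (p1 p2 p3 : Prop) [Decidable p1] [Decidable p2] [Decidable p3]
    (h1 : ¬ (p1 ∧ p2)) (h2 : ¬ (p1 ∧ p3)) (h3 : ¬ (p2 ∧ p3)) :
    (if p1 then (1 : ℝ) else 0) + (if p2 then 1 else 0) + (if p3 then 1 else 0) ≤ 1 := by
  by_cases q1 : p1
  · have q2 : ¬ p2 := fun h => h1 ⟨q1, h⟩
    have q3 : ¬ p3 := fun h => h2 ⟨q1, h⟩
    rw [if_pos q1, if_neg q2, if_neg q3]
    norm_num
  · by_cases q2 : p2
    · have q3 : ¬ p3 := fun h => h3 ⟨q2, h⟩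
      rw [if_neg q1, if_pos q2, if_neg q3]
      norm_num
    · rw [if_neg q1, if_neg q2]
      split_ifs <;> norm_num

lemma le_two (p1 p2 p3 : Prop) [Decidable p1] [Decidable p2] [Decidable p3]
    (h : ¬ (p1 ∧ p2 ∧ p3)) :
    (if p1 then (1 : ℝ) else 0) + (if p2 then 1 else 0) + (if p3 then 1 else 0) ≤ 2 := by
  by_cases q1 : p1
  · by_cases q2 : p2
    · have q3 : ¬ p3 := fun h' => h ⟨q1, q2, h'⟩
      rw [if_pos q1, if_pos q2, if_neg q3]
      norm_num
    · rw [if_pos q1, if_neg q2]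
      split_ifs <;> norm_num
  · rw [if_neg q1]
    split_ifs <;> norm_num

/-- the propositional core of the pointwise inequality -/
lemma core (p1 p2 p3 av bv cv aw bw cw : Prop) [Decidable p1] [Decidable p2] [Decidable p3]
    [Decidable av] [Decidable bv] [Decidable cv] [Decidable aw] [Decidable bw] [Decidable cw]
    (h0 : ¬ (p1 ∧ p2 ∧ p3))
    (d1 : ¬ (av ∧ bv)) (d2 : ¬ (av ∧ cv)) (d3 : ¬ (bv ∧ cv))
    (e1 : ¬ (aw ∧ bw)) (e2 : ¬ (aw ∧ cw)) (e3 : ¬ (bw ∧ cw))
    (sa : av → aw → ¬ p1 ∧ ¬ p2 ∧ ¬ p3) (sb : bv → bw → ¬ p1 ∧ ¬ p2 ∧ ¬ p3)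
    (sc : cv → cw → ¬ p1 ∧ ¬ p2 ∧ ¬ p3)
    (fab : (av ∧ bw) ∨ (bv ∧ aw) ∨ (av ∧ cw) ∨ (cv ∧ aw) ∨ (bv ∧ cw) ∨ (cv ∧ bw) →
      ¬ (p1 ∧ p2) ∧ ¬ (p1 ∧ p3) ∧ ¬ (p2 ∧ p3)) :
    (if p1 then (1 : ℝ) else 0) + (if p2 then 1 else 0) + (if p3 then 1 else 0)
      ≤ 2 - ((if av then (1 : ℝ) else 0) + (if bv then 1 else 0) + (if cv then 1 else 0))
          * ((if aw then (1 : ℝ) else 0) + (if bw then 1 else 0) + (if cw then 1 else 0))
        - ((if av then (1 : ℝ) else 0) * (if aw then 1 else 0)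
          + (if bv then (1 : ℝ) else 0) * (if bw then 1 else 0)
          + (if cv then (1 : ℝ) else 0) * (if cw then 1 else 0)) := by
  by_cases hv : av ∨ bv ∨ cv
  · by_cases hw : aw ∨ bw ∨ cw
    · rcases hv with hv | hv | hv <;> rcases hw with hw | hw | hw
      · obtain ⟨q1, q2, q3⟩ := sa hv hw
        have r1 : ¬ bv := fun h => d1 ⟨hv, h⟩
        have r2 : ¬ cv := fun h => d2 ⟨hv, h⟩
        have r3 : ¬ bw := fun h => e1 ⟨hw, h⟩
        have r4 : ¬ cw := fun h => e2 ⟨hw, h⟩
        rw [if_neg q1, if_neg q2, if_neg q3, if_pos hv, if_pos hw, if_neg r1, if_neg r2,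
          if_neg r3, if_neg r4]
        norm_num
      · obtain ⟨q1, q2, q3⟩ := fab (Or.inl ⟨hv, hw⟩)
        have r1 : ¬ bv := fun h => d1 ⟨hv, h⟩
        have r2 : ¬ cv := fun h => d2 ⟨hv, h⟩
        have r3 : ¬ aw := fun h => e1 ⟨h, hw⟩
        have r4 : ¬ cw := fun h => e3 ⟨hw, h⟩
        have hle := le_one p1 p2 p3 q1 q2 q3
        rw [if_pos hv, if_pos hw, if_neg r1, if_neg r2, if_neg r3, if_neg r4]
        linarith
      · obtain ⟨q1, q2, q3⟩ := fab (Or.inr (Or.inr (Or.inl ⟨hv, hw⟩)))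
        have r1 : ¬ bv := fun h => d1 ⟨hv, h⟩
        have r2 : ¬ cv := fun h => d2 ⟨hv, h⟩
        have r3 : ¬ aw := fun h => e2 ⟨h, hw⟩
        have r4 : ¬ bw := fun h => e3 ⟨h, hw⟩
        have hle := le_one p1 p2 p3 q1 q2 q3
        rw [if_pos hv, if_pos hw, if_neg r1, if_neg r2, if_neg r3, if_neg r4]
        linarith
      · obtain ⟨q1, q2, q3⟩ := fab (Or.inr (Or.inl ⟨hv, hw⟩))
        have r1 : ¬ av := fun h => d1 ⟨h, hv⟩
        have r2 : ¬ cv := fun h => d3 ⟨hv, h⟩
        have r3 : ¬ bw := fun h => e1 ⟨hw, h⟩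
        have r4 : ¬ cw := fun h => e2 ⟨hw, h⟩
        have hle := le_one p1 p2 p3 q1 q2 q3
        rw [if_pos hv, if_pos hw, if_neg r1, if_neg r2, if_neg r3, if_neg r4]
        linarith
      · obtain ⟨q1, q2, q3⟩ := sb hv hw
        have r1 : ¬ av := fun h => d1 ⟨h, hv⟩
        have r2 : ¬ cv := fun h => d3 ⟨hv, h⟩
        have r3 : ¬ aw := fun h => e1 ⟨h, hw⟩
        have r4 : ¬ cw := fun h => e3 ⟨hw, h⟩
        rw [if_neg q1, if_neg q2, if_neg q3, if_pos hv, if_pos hw, if_neg r1, if_neg r2,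
          if_neg r3, if_neg r4]
        norm_num
      · obtain ⟨q1, q2, q3⟩ := fab (Or.inr (Or.inr (Or.inr (Or.inr (Or.inl ⟨hv, hw⟩)))))
        have r1 : ¬ av := fun h => d1 ⟨h, hv⟩
        have r2 : ¬ cv := fun h => d3 ⟨hv, h⟩
        have r3 : ¬ aw := fun h => e2 ⟨h, hw⟩
        have r4 : ¬ bw := fun h => e3 ⟨h, hw⟩
        have hle := le_one p1 p2 p3 q1 q2 q3
        rw [if_pos hv, if_pos hw, if_neg r1, if_neg r2, if_neg r3, if_neg r4]
        linarith
      · obtain ⟨q1, q2, q3⟩ := fab (Or.inr (Or.inr (Or.inr (Or.inl ⟨hv, hw⟩))))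
        have r1 : ¬ av := fun h => d2 ⟨h, hv⟩
        have r2 : ¬ bv := fun h => d3 ⟨h, hv⟩
        have r3 : ¬ bw := fun h => e1 ⟨hw, h⟩
        have r4 : ¬ cw := fun h => e2 ⟨hw, h⟩
        have hle := le_one p1 p2 p3 q1 q2 q3
        rw [if_pos hv, if_pos hw, if_neg r1, if_neg r2, if_neg r3, if_neg r4]
        linarith
      · obtain ⟨q1, q2, q3⟩ := fab (Or.inr (Or.inr (Or.inr (Or.inr (Or.inr ⟨hv, hw⟩)))))
        have r1 : ¬ av := fun h => d2 ⟨h, hv⟩
        have r2 : ¬ bv := fun h => d3 ⟨h, hv⟩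
        have r3 : ¬ aw := fun h => e1 ⟨h, hw⟩
        have r4 : ¬ cw := fun h => e3 ⟨hw, h⟩
        have hle := le_one p1 p2 p3 q1 q2 q3
        rw [if_pos hv, if_pos hw, if_neg r1, if_neg r2, if_neg r3, if_neg r4]
        linarith
      · obtain ⟨q1, q2, q3⟩ := sc hv hw
        have r1 : ¬ av := fun h => d2 ⟨h, hv⟩
        have r2 : ¬ bv := fun h => d3 ⟨h, hv⟩
        have r3 : ¬ aw := fun h => e2 ⟨h, hw⟩
        have r4 : ¬ bw := fun h => e3 ⟨h, hw⟩
        rw [if_neg q1, if_neg q2, if_neg q3, if_pos hv, if_pos hw, if_neg r1, if_neg r2,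
          if_neg r3, if_neg r4]
        norm_num
    · have r1 : ¬ aw := fun h => hw (Or.inl h)
      have r2 : ¬ bw := fun h => hw (Or.inr (Or.inl h))
      have r3 : ¬ cw := fun h => hw (Or.inr (Or.inr h))
      rw [if_neg r1, if_neg r2, if_neg r3]
      simp only [add_zero, mul_zero, sub_zero]
      exact le_two p1 p2 p3 h0
  · have r1 : ¬ av := fun h => hv (Or.inl h)
    have r2 : ¬ bv := fun h => hv (Or.inr (Or.inl h))
    have r3 : ¬ cv := fun h => hv (Or.inr (Or.inr h))
    rw [if_neg r1, if_neg r2, if_neg r3]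
    simp only [add_zero, zero_mul, sub_zero]
    exact le_two p1 p2 p3 h0

omit [Fintype V] in
lemma swap12 (a b c : V) : ({a, b, c} : Finset V) = {b, a, c} := Finset.insert_comm _ _ _

omit [Fintype V] in
lemma swap23 (a b c : V) : ({a, b, c} : Finset V) = {a, c, b} := by rw [Finset.pair_comm b c]

omit [Fintype V] in
lemma rot (a b c : V) : ({a, b, c} : Finset V) = {b, c, a} := by rw [swap12, swap23]

/-- same class -/
lemma same (H : Finset (Finset V)) (hF : Free3 H)
    (a b c v w : V) (habc : ({a, b, c} : Finset V) ∈ H) (hv : ({v, b, c} : Finset V) ∈ H)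
    (hw : ({w, b, c} : Finset V) ∈ H) :
    ({a, v, w} : Finset V) ∉ H ∧ ({b, v, w} : Finset V) ∉ H ∧ ({c, v, w} : Finset V) ∉ H := by
  refine ⟨fun h => ?_, fun h => ?_, fun h => ?_⟩
  · exact hF.fiveF a v w b c h habc hv hw
  · exact hF.four b v w c h (by rwa [swap12]) (by rwa [swap12])
  · refine hF.four c v w b h ?_ ?_
    · rwa [rot]
    · rwa [rot]

/-- two different classes -/
lemma diff (H : Finset (Finset V)) (hF : Free3 H)
    (a b c v w : V) (habc : ({a, b, c} : Finset V) ∈ H) (hv : ({v, b, c} : Finset V) ∈ H)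
    (hw : ({a, w, c} : Finset V) ∈ H) :
    ¬ (({a, v, w} : Finset V) ∈ H ∧ ({b, v, w} : Finset V) ∈ H) ∧
    ¬ (({a, v, w} : Finset V) ∈ H ∧ ({c, v, w} : Finset V) ∈ H) ∧
    ¬ (({b, v, w} : Finset V) ∈ H ∧ ({c, v, w} : Finset V) ∈ H) := by
  refine ⟨fun h => ?_, fun h => ?_, fun h => ?_⟩
  · exact hF.fiveC a b c v w habc hv hw h.1 h.2
  · -- common vertex w : {w,a,v}, {w,a,c}, {w,v,c}
    refine hF.four w a v c ?_ ?_ ?_
    · rw [rot]; exact h.1
    · rw [swap12]; exact hw
    · rw [← rot c w v, swap23]; exact h.2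
  · -- common vertex v : {v,b,w}, {v,b,c}, {v,w,c}
    refine hF.four v b w c ?_ hv ?_
    · rw [swap12]; exact h.1
    · have := h.2
      rw [rot] at this
      exact this

omit [Fintype V] in
lemma p213 {H : Finset (Finset V)} {a b c : V} (h : ({a, b, c} : Finset V) ∈ H) :
    ({b, a, c} : Finset V) ∈ H := by rwa [← swap12]

omit [Fintype V] in
lemma p132 {H : Finset (Finset V)} {a b c : V} (h : ({a, b, c} : Finset V) ∈ H) :
    ({a, c, b} : Finset V) ∈ H := by rwa [← swap23]

omit [Fintype V] in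
lemma p231 {H : Finset (Finset V)} {a b c : V} (h : ({a, b, c} : Finset V) ∈ H) :
    ({b, c, a} : Finset V) ∈ H := p132 (p213 h)

omit [Fintype V] in
lemma p312 {H : Finset (Finset V)} {a b c : V} (h : ({a, b, c} : Finset V) ∈ H) :
    ({c, a, b} : Finset V) ∈ H := p213 (p132 h)

omit [Fintype V] in
lemma p321 {H : Finset (Finset V)} {a b c : V} (h : ({a, b, c} : Finset V) ∈ H) :
    ({c, b, a} : Finset V) ∈ H := p213 (p231 (p132 (p132 h)))

/-- pointwise inequality -/
lemma pointwise (H : Finset (Finset V)) (hF : Free3 H)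
    (a b c : V) (habc : ({a, b, c} : Finset V) ∈ H) (v w : V) :
    (if ({a, v, w} : Finset V) ∈ H then (1 : ℝ) else 0)
        + (if ({b, v, w} : Finset V) ∈ H then 1 else 0)
        + (if ({c, v, w} : Finset V) ∈ H then 1 else 0)
      ≤ 2 - ((if ({v, b, c} : Finset V) ∈ H then (1 : ℝ) else 0)
            + (if ({a, v, c} : Finset V) ∈ H then 1 else 0)
            + (if ({a, b, v} : Finset V) ∈ H then 1 else 0))
          * ((if ({w, b, c} : Finset V) ∈ H then (1 : ℝ) else 0)
            + (if ({a, w, c} : Finset V) ∈ H then 1 else 0)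
            + (if ({a, b, w} : Finset V) ∈ H then 1 else 0))
        - ((if ({v, b, c} : Finset V) ∈ H then (1 : ℝ) else 0)
              * (if ({w, b, c} : Finset V) ∈ H then 1 else 0)
          + (if ({a, v, c} : Finset V) ∈ H then (1 : ℝ) else 0)
              * (if ({a, w, c} : Finset V) ∈ H then 1 else 0)
          + (if ({a, b, v} : Finset V) ∈ H then (1 : ℝ) else 0)
              * (if ({a, b, w} : Finset V) ∈ H then 1 else 0)) := by
  have dis : ∀ u : V, ¬ (({u, b, c} : Finset V) ∈ H ∧ ({a, u, c} : Finset V) ∈ H) ∧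
      ¬ (({u, b, c} : Finset V) ∈ H ∧ ({a, b, u} : Finset V) ∈ H) ∧
      ¬ (({a, u, c} : Finset V) ∈ H ∧ ({a, b, u} : Finset V) ∈ H) := by
    intro u
    refine ⟨fun h => ?_, fun h => ?_, fun h => ?_⟩
    · exact hF.four c u b a (p312 h.1) (p321 h.2) (p321 habc)
    · exact hF.four b u c a (p213 h.1) (p231 h.2) (p231 habc)
    · exact hF.four a u c b h.1 (p132 h.2) (p132 habc)
  obtain ⟨d1, d2, d3⟩ := dis v
  obtain ⟨e1, e2, e3⟩ := dis w
  refine core _ _ _ _ _ _ _ _ _ ?_ d1 d2 d3 e1 e2 e3 ?_ ?_ ?_ ?_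
  · rintro ⟨h1, h2, h3⟩
    exact hF.fiveF a b c v w habc h1 h2 h3
  · intro hv hw
    exact same H hF a b c v w habc hv hw
  · intro hv hw
    have h := same H hF b a c v w (p213 habc) (p213 hv) (p213 hw)
    exact ⟨h.2.1, h.1, h.2.2⟩
  · intro hv hw
    have h := same H hF c a b v w (p312 habc) (p312 hv) (p312 hw)
    exact ⟨h.2.1, h.2.2, h.1⟩
  · have sw : ∀ q : V, ({q, w, v} : Finset V) ∈ H ↔ ({q, v, w} : Finset V) ∈ H := fun q => by
      rw [swap23]
    rintro (⟨hv, hw⟩ | ⟨hv, hw⟩ | ⟨hv, hw⟩ | ⟨hv, hw⟩ | ⟨hv, hw⟩ | ⟨hv, hw⟩)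
    · exact diff H hF a b c v w habc hv hw
    · have h := diff H hF a b c w v habc hw hv
      simp only [sw] at h
      exact h
    · -- v in A, w in C : swap b and c
      have h := diff H hF a c b v w (p132 habc) (p132 hv) (p132 hw)
      exact ⟨h.2.1, h.1, fun q => h.2.2 ⟨q.2, q.1⟩⟩
    · have h := diff H hF a c b w v (p132 habc) (p132 hw) (p132 hv)
      simp only [sw] at h
      exact ⟨h.2.1, h.1, fun q => h.2.2 ⟨q.2, q.1⟩⟩
    · -- v in B, w in C
      have h := diff H hF b c a v w (p231 habc) (p231 hv) (p231 hw)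
      exact ⟨fun q => h.2.1 ⟨q.2, q.1⟩, fun q => h.2.2 ⟨q.2, q.1⟩, h.1⟩
    · have h := diff H hF b c a w v (p231 habc) (p231 hw) (p231 hv)
      simp only [sw] at h
      exact ⟨fun q => h.2.1 ⟨q.2, q.1⟩, fun q => h.2.2 ⟨q.2, q.1⟩, h.1⟩

/-- sum of the three links -/
lemma links (H : Finset (Finset V)) (hF : Free3 H) (x : V → ℝ) (hx : IsWeight x)
    (a b c : V) (habc : ({a, b, c} : Finset V) ∈ H) :
    tri H (pt a) x x + tri H (pt b) x x + tri H (pt c) x x
      ≤ 2 - 4 / 3 * (∑ v, ((if ({v, b, c} : Finset V) ∈ H then (1 : ℝ) else 0)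
            + (if ({a, v, c} : Finset V) ∈ H then 1 else 0)
            + (if ({a, b, v} : Finset V) ∈ H then 1 else 0)) * x v) ^ 2 := by
  set A : V → ℝ := fun v => if ({v, b, c} : Finset V) ∈ H then 1 else 0 with hA
  set B : V → ℝ := fun v => if ({a, v, c} : Finset V) ∈ H then 1 else 0 with hB
  set C : V → ℝ := fun v => if ({a, b, v} : Finset V) ∈ H then 1 else 0 with hC
  set al := ∑ v, A v * x v with hal
  set be := ∑ v, B v * x v with hbe
  set ga := ∑ v, C v * x v with hga
  have hsum : (∑ v, (A v + B v + C v) * x v) = al + be + ga := by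
    rw [hal, hbe, hga, ← Finset.sum_add_distrib, ← Finset.sum_add_distrib]
    refine Finset.sum_congr rfl fun v _ => ?_
    ring
  have h1 : tri H (pt a) x x + tri H (pt b) x x + tri H (pt c) x x
      ≤ ∑ v, ∑ w, (2 - (A v + B v + C v) * (A w + B w + C w)
          - (A v * A w + B v * B w + C v * C w)) * (x v * x w) := by
    rw [tri_pt, tri_pt, tri_pt, ← Finset.sum_add_distrib, ← Finset.sum_add_distrib]
    refine Finset.sum_le_sum fun v _ => ?_
    rw [← Finset.sum_add_distrib, ← Finset.sum_add_distrib]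
    refine Finset.sum_le_sum fun w _ => ?_
    have h := pointwise H hF a b c habc v w
    have hxx : 0 ≤ x v * x w := mul_nonneg (hx.1 v) (hx.1 w)
    have h2 := mul_le_mul_of_nonneg_right h hxx
    have h3 : (if ({a, v, w} : Finset V) ∈ H then x v * x w else 0)
        + (if ({b, v, w} : Finset V) ∈ H then x v * x w else 0)
        + (if ({c, v, w} : Finset V) ∈ H then x v * x w else 0)
        = ((if ({a, v, w} : Finset V) ∈ H then (1 : ℝ) else 0)
        + (if ({b, v, w} : Finset V) ∈ H then 1 else 0)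
        + (if ({c, v, w} : Finset V) ∈ H then 1 else 0)) * (x v * x w) := by
      rw [add_mul, add_mul, ite_mul, ite_mul, ite_mul, one_mul, zero_mul]
    rw [h3]
    exact h2
  have h2 : ∑ v, ∑ w, (2 - (A v + B v + C v) * (A w + B w + C w)
          - (A v * A w + B v * B w + C v * C w)) * (x v * x w)
      = 2 - (al + be + ga) ^ 2 - (al ^ 2 + be ^ 2 + ga ^ 2) := by
    have e1 : ∀ v w, (2 - (A v + B v + C v) * (A w + B w + C w)
          - (A v * A w + B v * B w + C v * C w)) * (x v * x w)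
        = 2 * x v * x w - ((A v + B v + C v) * x v) * ((A w + B w + C w) * x w)
          - (A v * x v) * (A w * x w) - (B v * x v) * (B w * x w)
          - (C v * x v) * (C w * x w) := by
      intro v w
      ring
    simp only [e1, Finset.sum_sub_distrib, ← Finset.mul_sum, ← Finset.sum_mul, hx.2, hsum,
      ← hal, ← hbe, ← hga]
    ring
  rw [h2] at h1
  rw [hsum]
  nlinarith [sq_nonneg (al - be), sq_nonneg (be - ga), sq_nonneg (al - ga)]


open Classical in
/-- Let `x` be an optimal weighting of a finite 3-graph `H` without the three configurations and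
let `{a,b,c}` be an edge inside the support of `x`.  Then the Lagrangian is at most
`1/27 + (4/27) τ`, where `τ` is the total weight of the vertices not dominated by `{a,b,c}`. -/
theorem dominating_free {V : Type*} [Fintype V] [DecidableEq V] (H : Finset (Finset V))
    (hH : ∀ e ∈ H, e.card = 3) (hF : Free3 H) (x : V → ℝ) (hx : IsWeight x)
    (hmax : ∀ y : V → ℝ, IsWeight y → lagr H y ≤ lagr H x)
    (a b c : V) (habc : ({a, b, c} : Finset V) ∈ H)
    (ha : 0 < x a) (hb : 0 < x b) (hc : 0 < x c) :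
      lagr H x ≤ 1 / 27 + 4 / 27 * ∑ v, (if Dominated H a b c v then 0 else x v) := by
  have h1 := lagrange H hH x hx hmax a ha
  have h2 := lagrange H hH x hx hmax b hb
  have h3 := lagrange H hH x hx hmax c hc
  have h4 := links H hF x hx a b c habc
  have key : (∑ v, ((if ({v, b, c} : Finset V) ∈ H then (1 : ℝ) else 0)
          + (if ({a, v, c} : Finset V) ∈ H then 1 else 0)
          + (if ({a, b, v} : Finset V) ∈ H then 1 else 0)) * x v)
      = 1 - ∑ v, (if Dominated H a b c v then 0 else x v) := by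
    rw [eq_sub_iff_add_eq, ← Finset.sum_add_distrib]
    refine Eq.trans (Finset.sum_congr rfl fun v _ => ?_) hx.2
    have d1 : ¬ (({v, b, c} : Finset V) ∈ H ∧ ({a, v, c} : Finset V) ∈ H) := fun h =>
      hF.four c v b a (p312 h.1) (p321 h.2) (p321 habc)
    have d2 : ¬ (({v, b, c} : Finset V) ∈ H ∧ ({a, b, v} : Finset V) ∈ H) := fun h =>
      hF.four b v c a (p213 h.1) (p231 h.2) (p231 habc)
    have d3 : ¬ (({a, v, c} : Finset V) ∈ H ∧ ({a, b, v} : Finset V) ∈ H) := fun h =>
      hF.four a v c b h.1 (p132 h.2) (p132 habc)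
    by_cases q1 : ({v, b, c} : Finset V) ∈ H
    · have q2 : ({a, v, c} : Finset V) ∉ H := fun h => d1 ⟨q1, h⟩
      have q3 : ({a, b, v} : Finset V) ∉ H := fun h => d2 ⟨q1, h⟩
      have q : Dominated H a b c v := Or.inr (Or.inl q1)
      rw [if_pos q1, if_neg q2, if_neg q3, if_pos q]
      ring
    · by_cases q2 : ({a, v, c} : Finset V) ∈ H
      · have q3 : ({a, b, v} : Finset V) ∉ H := fun h => d3 ⟨q2, h⟩
        have q : Dominated H a b c v := Or.inr (Or.inr (Or.inl q2))
        rw [if_neg q1, if_pos q2, if_neg q3, if_pos q]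
        ring
      · by_cases q3 : ({a, b, v} : Finset V) ∈ H
        · have q : Dominated H a b c v := Or.inr (Or.inr (Or.inr q3))
          rw [if_neg q1, if_neg q2, if_pos q3, if_pos q]
          ring
        · have q : ¬ Dominated H a b c v := by
            rintro (h | h | h | h)
            · simp only [Finset.mem_insert, Finset.mem_singleton] at h
              rcases h with rfl | rfl | rfl
              · exact q1 habc
              · exact q2 habc
              · exact q3 habc
            · exact q1 h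
            · exact q2 h
            · exact q3 h
          rw [if_neg q1, if_neg q2, if_neg q3, if_neg q]
          ring
  rw [key] at h4
  rw [lagr_eq]
  set t := ∑ v, (if Dominated H a b c v then 0 else x v) with ht
  nlinarith [sq_nonneg t]


end Pool.Agent.Lib.MP_bc13a4_co.Dom
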