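import Pool.Agent.Lib.MP_bc13a4_co.Tri.Lag

set_option autoImplicit false

namespace Pool.Agent.Lib.MP_bc13a4_co.Tri

open Finset Dom

variable {V : Type*} [Fintype V] [DecidableEq V]

lemma tri_neg_left (H : Finset (Finset V)) (u v : V) (y z : V → ℝ) (t : ℝ) (x : V → ℝ) :
    tri H (fun w => 1 * x w + t * (1 * pt u w + (-1) * pt v w)) y z
      = tri H x y z + t * (tri H (pt u) y z - tri H (pt v) y z) := by
  rw [tri_add_left, tri_add_left]
  ring

/-- shift of weight along an uncovered pair -/
lemma tri_shift (H : Finset (Finset V)) (hH : ∀ e ∈ H, e.card = 3) (x : V → ℝ) (u v : V)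
    (hcov : tri H (pt u) (pt v) x = 0) (t : ℝ) :
    tri H (fun w => 1 * x w + t * (1 * pt u w + (-1) * pt v w))
      (fun w => 1 * x w + t * (1 * pt u w + (-1) * pt v w))
      (fun w => 1 * x w + t * (1 * pt u w + (-1) * pt v w))
      = tri H x x x + 3 * t * (tri H (pt u) x x - tri H (pt v) x x) := by
  set d : V → ℝ := fun w => 1 * x w + t * (1 * pt u w + (-1) * pt v w) with hd
  have e1 : ∀ y z, tri H d y z = tri H x y z + t * (tri H (pt u) y z - tri H (pt v) y z) :=
    fun y z => tri_neg_left H u v y z t x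
  have e2 : ∀ y z, tri H y d z = tri H y x z + t * (tri H y (pt u) z - tri H y (pt v) z) := by
    intro y z
    rw [tri_comm12, e1, tri_comm12 H x y, tri_comm12 H (pt u) y, tri_comm12 H (pt v) y]
  have e3 : ∀ y z, tri H y z d = tri H y z x + t * (tri H y z (pt u) - tri H y z (pt v)) := by
    intro y z
    rw [tri_comm23, e2, tri_comm23 H y x, tri_comm23 H y (pt u), tri_comm23 H y (pt v)]
  have uu : ∀ z, tri H (pt u) (pt u) z = 0 := fun z => tri_pt_pt H hH u z
  have vv : ∀ z, tri H (pt v) (pt v) z = 0 := fun z => tri_pt_pt H hH v z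
  have uxu : ∀ z, tri H (pt u) z (pt u) = 0 := fun z => by rw [tri_comm23]; exact uu z
  have vxv : ∀ z, tri H (pt v) z (pt v) = 0 := fun z => by rw [tri_comm23]; exact vv z
  have xuu : ∀ z, tri H z (pt u) (pt u) = 0 := fun z => by rw [tri_comm12]; exact uxu z
  have xvv : ∀ z, tri H z (pt v) (pt v) = 0 := fun z => by rw [tri_comm12]; exact vxv z
  have vu : tri H (pt v) (pt u) x = 0 := by rw [tri_comm12]; exact hcov
  have uxv : tri H (pt u) x (pt v) = 0 := by rw [tri_comm23]; exact hcov
  have vxu : tri H (pt v) x (pt u) = 0 := by rw [tri_comm23]; exact vu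
  have xuv : tri H x (pt u) (pt v) = 0 := by rw [tri_comm12]; exact uxv
  have xvu : tri H x (pt v) (pt u) = 0 := by rw [tri_comm12]; exact vxu
  have s1 : tri H x (pt u) x = tri H (pt u) x x := tri_comm12 H _ _ _
  have s2 : tri H x (pt v) x = tri H (pt v) x x := tri_comm12 H _ _ _
  have s3 : tri H x x (pt u) = tri H (pt u) x x := by rw [tri_comm23, tri_comm12]
  have s4 : tri H x x (pt v) = tri H (pt v) x x := by rw [tri_comm23, tri_comm12]
  rw [e1, e2, e2, e2, e3, e3, e3, e3, e3, e3, e3, e3, e3]
  simp only [uu, vv, uxu, vxv, xuu, xvv, vu, hcov, uxv, vxu, xuv, xvu, s1, s2, s3, s4]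
  ring

/-- continuity of the Lagrangian polynomial -/
lemma continuous_lagr (H : Finset (Finset V)) : Continuous (fun x : V → ℝ => lagr H x) := by
  unfold lagr
  refine Continuous.div_const ?_ _
  refine continuous_finsetSum _ fun u _ => continuous_finsetSum _ fun v _ =>
    continuous_finsetSum _ fun w _ => ?_
  by_cases h : ({u, v, w} : Finset V) ∈ H
  · simp only [if_pos h]
    exact ((continuous_apply u).mul (continuous_apply v)).mul (continuous_apply w)
  · simp only [if_neg h]
    exact continuous_const

lemma exists_max [Nonempty V] (H : Finset (Finset V)) :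
    ∃ x : V → ℝ, IsWeight x ∧ ∀ y : V → ℝ, IsWeight y → lagr H y ≤ lagr H x := by
  have hc : IsCompact {x : V → ℝ | IsWeight x} := by
    have : {x : V → ℝ | IsWeight x} = stdSimplex ℝ V := by
      ext x
      simp [IsWeight, stdSimplex]
    rw [this]
    exact isCompact_stdSimplex ℝ V
  have hn : {x : V → ℝ | IsWeight x}.Nonempty := by
    obtain ⟨v⟩ := ‹Nonempty V›
    refine ⟨pt v, ?_, ?_⟩
    · intro w
      unfold pt
      split_ifs <;> norm_num
    · simp [pt]
  obtain ⟨x, hx, hmax⟩ := hc.exists_isMaxOn hn (continuous_lagr H).continuousOn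
  exact ⟨x, hx, fun y hy => hmax hy⟩

/-- an optimal weight of minimal support -/
lemma exists_min_support [Nonempty V] (H : Finset (Finset V)) :
    ∃ x : V → ℝ, IsWeight x ∧ (∀ y : V → ℝ, IsWeight y → lagr H y ≤ lagr H x) ∧
      ∀ y : V → ℝ, IsWeight y → lagr H y = lagr H x →
        (Finset.univ.filter (fun v => 0 < x v)).card ≤
          (Finset.univ.filter (fun v => 0 < y v)).card := by
  classical
  obtain ⟨x0, hx0, hmax0⟩ := exists_max H
  have hex : ∃ n : ℕ, ∃ x : V → ℝ, IsWeight x ∧ lagr H x = lagr H x0 ∧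
      (Finset.univ.filter (fun v => 0 < x v)).card = n := ⟨_, x0, hx0, rfl, rfl⟩
  obtain ⟨x, hx, hval, hcard⟩ := Nat.find_spec hex
  refine ⟨x, hx, fun y hy => by rw [hval]; exact hmax0 y hy, fun y hy hyx => ?_⟩
  rw [hcard]
  exact Nat.find_min' hex ⟨y, hy, by rw [hyx, hval], rfl⟩

/-- pair covering of a minimal support -/
lemma pair_cover (H : Finset (Finset V)) (hH : ∀ e ∈ H, e.card = 3) (x : V → ℝ)
    (hx : IsWeight x) (hmax : ∀ y : V → ℝ, IsWeight y → lagr H y ≤ lagr H x)
    (hmin : ∀ y : V → ℝ, IsWeight y → lagr H y = lagr H x →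
        (Finset.univ.filter (fun v => 0 < x v)).card ≤
          (Finset.univ.filter (fun v => 0 < y v)).card)
    (u v : V) (hu : 0 < x u) (hv : 0 < x v) (huv : u ≠ v) :
    ∃ w, 0 < x w ∧ ({u, v, w} : Finset V) ∈ H := by
  by_contra hno
  push Not at hno
  have hcov : tri H (pt u) (pt v) x = 0 := by
    rw [tri_pt]
    refine Finset.sum_eq_zero fun a _ => Finset.sum_eq_zero fun b _ => ?_
    split_ifs with h
    · by_cases ha : a = v
      · subst ha
        have hb : x b = 0 := by
          by_contra hb
          exact hno b (lt_of_le_of_ne (hx.1 b) (Ne.symm hb)) h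
        rw [hb, mul_zero]
      · simp [pt, ha]
    · rfl
  set g := tri H (pt u) x x - tri H (pt v) x x with hg
  have hw : ∀ t : ℝ, -(x u) ≤ t → t ≤ x v →
      IsWeight (fun w => 1 * x w + t * (1 * pt u w + (-1) * pt v w)) := by
    intro t ht1 ht2
    refine ⟨fun w => ?_, ?_⟩
    · by_cases h1 : w = u
      · subst h1
        have h2 : w ≠ v := huv
        simp only [pt, if_true, if_neg h2]
        linarith
      · by_cases h2 : w = v
        · subst h2
          simp only [pt, if_true, if_neg h1]
          linarith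
        · simp only [pt, if_neg h1, if_neg h2]
          have := hx.1 w
          linarith
    · rw [Finset.sum_add_distrib, ← Finset.mul_sum, ← Finset.mul_sum, hx.2,
        Finset.sum_add_distrib, ← Finset.mul_sum, ← Finset.mul_sum]
      simp [pt]
  have hval : ∀ t : ℝ, lagr H (fun w => 1 * x w + t * (1 * pt u w + (-1) * pt v w))
      = lagr H x + t * g / 2 := by
    intro t
    rw [lagr_eq, tri_shift H hH x u v hcov t, lagr_eq, ← hg]
    ring
  have h1 := hmax _ (hw (x v) (by linarith) le_rfl)
  have h2 := hmax _ (hw (-(x u)) le_rfl (by linarith))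
  rw [hval] at h1 h2
  have g0 : g = 0 := by
    have h3 : g ≤ 0 := by
      by_contra h
      rw [not_le] at h
      nlinarith [mul_pos hv h]
    have h4 : 0 ≤ g := by
      by_contra h
      rw [not_le] at h
      nlinarith [mul_pos_of_neg_of_neg h (neg_lt_zero.2 hu)]
    linarith
  have h5 := hmin _ (hw (x v) (by linarith) le_rfl) (by rw [hval, g0]; ring)
  have h6 : (Finset.univ.filter (fun w => 0 < 1 * x w + x v * (1 * pt u w + (-1) * pt v w)))
      ⊂ Finset.univ.filter (fun w => 0 < x w) := by
    rw [Finset.ssubset_iff_of_subset]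
    · refine ⟨v, by simp [hv], ?_⟩
      simp only [Finset.mem_filter, Finset.mem_univ, true_and, not_lt]
      have : pt u v = 0 := by simp [pt, huv.symm]
      rw [this]
      simp [pt]
    · intro w hw'
      simp only [Finset.mem_filter, Finset.mem_univ, true_and] at hw' ⊢
      by_cases h1 : w = u
      · subst h1; exact hu
      · by_cases h2 : w = v
        · subst h2; exact hv
        · simp only [pt, if_neg h1, if_neg h2] at hw'
          linarith
  exact absurd h5 (not_le.2 (Finset.card_lt_card h6))

lemma lagr_zero_of_support (H : Finset (Finset V)) (hH : ∀ e ∈ H, e.card = 3) (x : V → ℝ)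
    (hx : IsWeight x) (h : ∀ u v, 0 < x u → 0 < x v → u = v) : lagr H x = 0 := by
  unfold lagr
  rw [div_eq_zero_iff]
  left
  refine Finset.sum_eq_zero fun u _ => Finset.sum_eq_zero fun v _ =>
    Finset.sum_eq_zero fun w _ => ?_
  split_ifs with he
  · by_contra hne
    have hu : x u ≠ 0 := fun h0 => hne (by rw [h0]; ring)
    have hv : x v ≠ 0 := fun h0 => hne (by rw [h0]; ring)
    have huv : u = v := h u v (lt_of_le_of_ne (hx.1 u) (Ne.symm hu))
      (lt_of_le_of_ne (hx.1 v) (Ne.symm hv))
    exact ((card_three_iff u v w).1 (hH _ he)).1 huv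
  · rfl

/-- the seven-vertex pattern (Paley tournament) does not occur -/
def Free7 (H : Finset (Finset V)) : Prop :=
  ∀ f : Nat → V, (∀ e ∈ ({{0, 1, 3}, {1, 2, 4}, {2, 3, 5}, {3, 4, 6}, {4, 5, 0}, {5, 6, 1},
    {6, 0, 2}, {0, 1, 5}, {1, 2, 6}, {2, 3, 0}, {3, 4, 1}, {4, 5, 2}, {5, 6, 3}, {6, 0, 4}} :
      Finset (Finset (Fin 7))), e.image (fun i : Fin 7 => f i) ∈ H) → False

/-- Without the four configurations the Lagrangian is at most `1/27`. -/
theorem gap_free (D : V → V → Prop) (hF : Free3 (triangles D)) (h7 : Free7 (triangles D)) :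
    ∀ y : V → ℝ, IsWeight y → lagr (triangles D) y ≤ 1 / 27 := by
  classical
  rcases isEmpty_or_nonempty V with hV | hV
  · intro y hy
    exfalso
    have := hy.2
    simp at this
  set H := triangles D with hHdef
  have hH : ∀ e ∈ H, e.card = 3 := triangles_card
  obtain ⟨x, hx, hmax, hmin⟩ := exists_min_support H
  intro y hy
  refine (hmax y hy).trans ?_
  by_cases hdom : ∃ a b c, 0 < x a ∧ 0 < x b ∧ 0 < x c ∧ ({a, b, c} : Finset V) ∈ H ∧
      ∀ z, 0 < x z → Dominated H a b c z
  · obtain ⟨a, b, c, ha, hb, hc, he, hd⟩ := hdom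
    have h := dominating_free H hH hF x hx hmax a b c he ha hb hc
    have h0 : ∑ v, (if Dominated H a b c v then 0 else x v) = 0 := by
      refine Finset.sum_eq_zero fun v _ => ?_
      split_ifs with h1
      · rfl
      · by_contra hne
        exact h1 (hd v (lt_of_le_of_ne (hx.1 v) (Ne.symm hne)))
    simp only [h0, mul_zero, add_zero] at h
    exact h
  · push Not at hdom
    have hyp : Hyp (fun v => 0 < x v) D := by
      refine ⟨?_, ?_, ?_, ?_, ?_, ?_⟩
      · intro u v hu hv huv
        obtain ⟨w, hw, he⟩ := pair_cover H hH x hx hmax hmin u v hu hv huv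
        exact ⟨w, hw, mem_triangles.1 he⟩
      · intro a b c ha hb hc he
        obtain ⟨z, hz, hnd⟩ := hdom a b c ha hb hc (mem_triangles.2 he)
        refine ⟨z, hz, ?_, ?_, ?_, ?_, ?_, ?_⟩
        · rintro rfl; exact hnd (Or.inl (by simp))
        · rintro rfl; exact hnd (Or.inl (by simp))
        · rintro rfl; exact hnd (Or.inl (by simp))
        · intro h
          exact hnd (Or.inr (Or.inr (Or.inr (mem_triangles.2 (E_rot h)))))
        · intro h
          exact hnd (Or.inr (Or.inl (mem_triangles.2 h)))
        · intro h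
          exact hnd (Or.inr (Or.inr (Or.inl (mem_triangles.2 (E_swap12 h)))))
      · intro d p q r h1 h2 h3
        exact hF.four d p q r (mem_triangles.2 h1) (mem_triangles.2 h2)
          (mem_triangles.2 h3)
      · intro s t p q r h1 h2 h3 h4
        exact hF.fiveF p q r s t (mem_triangles.2 h1) (mem_triangles.2 h2)
          (mem_triangles.2 h3) (mem_triangles.2 h4)
      · intro a b c d e h1 h2 h3 h4 h5
        -- tight cycle a b c d e
        refine hF.fiveC c a b e d ?_ ?_ ?_ ?_ ?_
        · exact mem_triangles.2 (E_rot (E_rot h1))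
        · exact mem_triangles.2 h5
        · exact mem_triangles.2 (E_rot h2)
        · exact mem_triangles.2 (E_swap23 h3)
        · exact mem_triangles.2 (E_swap23 (E_rot (E_rot h4)))
      · intro f h1 h2 h3 h4 h5 h6 h7' h8 h9 h10 h11 h12 h13 h14
        refine h7 f ?_
        intro e he
        simp only [Finset.mem_insert, Finset.mem_singleton] at he
        rcases he with rfl | rfl | rfl | rfl | rfl | rfl | rfl | rfl | rfl | rfl | rfl | rfl |
          rfl | rfl
        all_goals simp only [Finset.image_insert, Finset.image_singleton]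
        · exact mem_triangles.2 h1
        · exact mem_triangles.2 h2
        · exact mem_triangles.2 h3
        · exact mem_triangles.2 h4
        · exact mem_triangles.2 h5
        · exact mem_triangles.2 h6
        · exact mem_triangles.2 h7'
        · exact mem_triangles.2 h8
        · exact mem_triangles.2 h9
        · exact mem_triangles.2 h10
        · exact mem_triangles.2 h11
        · exact mem_triangles.2 h12
        · exact mem_triangles.2 h13
        · exact mem_triangles.2 h14
    have hsub := core hyp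
    rw [lagr_zero_of_support H hH x hx hsub]
    norm_num

/-- **Gap theorem** for 3-graphs of directed triangles. -/
theorem gap (D : V → V → Prop) :
    (∀ y : V → ℝ, IsWeight y → lagr (triangles D) y ≤ 1 / 27) ∨
      ∃ x : V → ℝ, IsWeight x ∧ 1 / 27 + 3 / 2000 ≤ lagr (triangles D) x := by
  rcases isEmpty_or_nonempty V with hV | hV
  · left
    intro y hy
    exfalso
    have := hy.2
    simp at this
  obtain ⟨x, hx, hmax⟩ := exists_max (triangles D)
  by_cases hbig : 1 / 27 + 3 / 2000 ≤ lagr (triangles D) x
  · exact Or.inr ⟨x, hx, hbig⟩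
  · rw [not_le] at hbig
    exact Or.inl (gap_free D (free3_of_lt _ x hmax hbig)
      (fun f hf => seven _ x hmax hbig f hf))

end Pool.Agent.Lib.MP_bc13a4_co.Tri
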