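import Pool.Agent.Lib.MP_bc13a4_co.Tri.Core
import Pool.Agent.Lib.MP_bc13a4_co.Tri.Dom

set_option autoImplicit false

namespace Pool.Agent.Lib.MP_bc13a4_co.Tri

open Finset Dom

/-- The 3-graph of directed triangles of a binary relation. -/
noncomputable def triangles {V : Type*} [Fintype V] [DecidableEq V] (D : V → V → Prop) :
    Finset (Finset V) := by
  classical
  exact Finset.univ.filter (fun e => e.card = 3 ∧ ∃ u v w, e = {u, v, w} ∧ D u v ∧ D v w ∧ D w u)

section

variable {V : Type*} [Fintype V] [DecidableEq V] {D : V → V → Prop}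

omit [Fintype V] in
lemma card_three_iff (u v w : V) : ({u, v, w} : Finset V).card = 3 ↔ u ≠ v ∧ v ≠ w ∧ u ≠ w := by
  rw [Finset.card_eq_three]
  constructor
  · rintro ⟨x, y, z, hxy, hxz, hyz, h⟩
    have h3 : ({u, v, w} : Finset V).card = 3 := by
      rw [h]; exact Finset.card_eq_three.2 ⟨x, y, z, hxy, hxz, hyz, rfl⟩
    refine ⟨?_, ?_, ?_⟩
    · rintro rfl
      have : ({u, u, w} : Finset V).card ≤ 2 := by
        rw [Finset.insert_eq_of_mem (Finset.mem_insert_self _ _)]
        exact Finset.card_le_two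
      omega
    · rintro rfl
      have : ({u, v, v} : Finset V).card ≤ 2 := by
        rw [Finset.pair_eq_singleton]
        exact Finset.card_le_two
      omega
    · rintro rfl
      have : ({u, v, u} : Finset V).card ≤ 2 := by
        rw [Finset.pair_comm v u, Finset.insert_eq_of_mem (Finset.mem_insert_self _ _)]
        exact Finset.card_le_two
      omega
  · rintro ⟨h1, h2, h3⟩
    exact ⟨u, v, w, h1, h3, h2, rfl⟩

lemma mem_triangles {u v w : V} : ({u, v, w} : Finset V) ∈ triangles D ↔ E D u v w := by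
  classical
  unfold triangles
  rw [Finset.mem_filter, card_three_iff]
  constructor
  · rintro ⟨-, hne, a, b, c, he, h1, h2, h3⟩
    refine ⟨hne, ?_⟩
    have ha : a ∈ ({u, v, w} : Finset V) := by rw [he]; simp
    have hb : b ∈ ({u, v, w} : Finset V) := by rw [he]; simp
    have hc : c ∈ ({u, v, w} : Finset V) := by rw [he]; simp
    have habc : a ≠ b ∧ b ≠ c ∧ a ≠ c := by
      rw [← card_three_iff, ← he, card_three_iff]; exact hne
    simp only [Finset.mem_insert, Finset.mem_singleton] at ha hb hc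
    obtain ⟨k1, k2, k3⟩ := habc
    rcases ha with rfl | rfl | rfl <;> rcases hb with rfl | rfl | rfl <;>
      rcases hc with rfl | rfl | rfl <;> first
      | exact absurd rfl k1
      | exact absurd rfl k2
      | exact absurd rfl k3
      | exact Or.inl ⟨h1, h2, h3⟩
      | exact Or.inl ⟨h2, h3, h1⟩
      | exact Or.inl ⟨h3, h1, h2⟩
      | exact Or.inr ⟨h1, h3, h2⟩
      | exact Or.inr ⟨h2, h1, h3⟩
      | exact Or.inr ⟨h3, h2, h1⟩
  · rintro ⟨hne, h⟩
    refine ⟨Finset.mem_univ _, hne, ?_⟩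
    rcases h with ⟨h1, h2, h3⟩ | ⟨h1, h2, h3⟩
    · exact ⟨u, v, w, rfl, h1, h2, h3⟩
    · refine ⟨v, u, w, ?_, h1, h3, h2⟩
      exact Finset.insert_comm _ _ _

lemma triangles_card : ∀ e ∈ triangles D, e.card = 3 := by
  classical
  intro e he
  unfold triangles at he
  exact (Finset.mem_filter.1 he).2.1

/-- no seven-vertex pattern -/
lemma seven (H : Finset (Finset V)) (x : V → ℝ)
    (hmax : ∀ y : V → ℝ, IsWeight y → lagr H y ≤ lagr H x) (hlt : lagr H x < 1 / 27 + 3 / 2000)
    (f : Nat → V)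
    (h : ∀ e ∈ ({{0, 1, 3}, {1, 2, 4}, {2, 3, 5}, {3, 4, 6}, {4, 5, 0}, {5, 6, 1}, {6, 0, 2},
      {0, 1, 5}, {1, 2, 6}, {2, 3, 0}, {3, 4, 1}, {4, 5, 2}, {5, 6, 3}, {6, 0, 4}} :
        Finset (Finset (Fin 7))), e.image (fun i : Fin 7 => f i) ∈ H) : False := by
  have hv := conf H x hmax (fun i : Fin 7 => f i) (fun _ => 1 / 7) (by intro i; norm_num)
    (by simp) _ h (2 / 49) (by decide +kernel)
  norm_num at hv
  linarith

end

end Pool.Agent.Lib.MP_bc13a4_co.Tri
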