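import Pool.Agent.Lib.MP_bc13a4_co.Tri.Count

set_option autoImplicit false

namespace Pool.Agent.Lib.MP_bc13a4_co.Tri

open Finset Dom

/-- an embedding of the pattern `K` -/
def Emb {a : ℕ} {V : Type*} [DecidableEq V] (K : Finset (Finset (Fin a))) (H : Finset (Finset V))
    (f : Fin a → V) : Prop := ∀ e ∈ K, e.image f ∈ H

instance {a : ℕ} {V : Type*} [DecidableEq V] (K : Finset (Finset (Fin a)))
    (H : Finset (Finset V)) : DecidablePred (Emb K H) := fun f => by
  unfold Emb
  infer_instance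

/-- every edge has three points and every pair is covered -/
def Good {a : ℕ} (K : Finset (Finset (Fin a))) : Prop :=
  (∀ e ∈ K, e.card = 3) ∧ ∀ i j : Fin a, i ≠ j → ∃ e ∈ K, i ∈ e ∧ j ∈ e

lemma emb_injective {a : ℕ} {V : Type*} [DecidableEq V] {K : Finset (Finset (Fin a))}
    (hK : Good K) {H : Finset (Finset V)} (hH : ∀ e ∈ H, e.card = 3) {f : Fin a → V}
    (hf : Emb K H f) : Function.Injective f := by
  intro i j hij
  by_contra hne
  obtain ⟨e, he, hi, hj⟩ := hK.2 i j hne
  have h1 : (e.image f).card = e.card := by rw [hH _ (hf e he), hK.1 e he]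
  exact hne (Finset.card_image_iff.1 h1 hi hj hij)

section

variable {V : Type} [Fintype V] [DecidableEq V] {D : V → V → Prop}

lemma emb_pull (hD : ∀ u, ¬ D u u) {a k : ℕ} {K : Finset (Finset (Fin a))} (hK : Good K)
    (g : Fin k → V) (f : Fin a → Fin k) (hf : Emb K (triangles (pull D g)) f) :
    Emb K (triangles D) (g ∘ f) := by
  intro e he
  obtain ⟨i, j, l, hij, hil, hjl, rfl⟩ := Finset.card_eq_three.1 (hK.1 e he)
  have h1 := hf _ he
  rw [Finset.image_insert, Finset.image_insert, Finset.image_singleton] at h1 ⊢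
  exact ((mem_pull hD g _ _ _).1 h1).2

/-- number of maps `g` for which the pull-back contains `K` -/
lemma pat_count (hD : ∀ u, ¬ D u u) {a : ℕ} (K : Finset (Finset (Fin a))) (hK : Good K) (k : ℕ) :
    ((Finset.univ.filter (fun g : Fin k → V =>
        ∃ f : Fin a → Fin k, Emb K (triangles (pull D g)) f)).card : ℝ)
      ≤ (k : ℝ) ^ a * ((Fintype.card V : ℝ) ^ (k - a) *
        ((Finset.univ.filter (fun h : Fin a → V => Emb K (triangles D) h)).card : ℝ)) := by
  classical
  have h1 : Finset.univ.filter (fun g : Fin k → V =>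
        ∃ f : Fin a → Fin k, Emb K (triangles (pull D g)) f)
      ⊆ (Finset.univ : Finset (Fin a → Fin k)).biUnion (fun f =>
        if Function.Injective f then
          Finset.univ.filter (fun g : Fin k → V => Emb K (triangles D) (g ∘ f)) else ∅) := by
    intro g hg
    obtain ⟨f, hf⟩ := (Finset.mem_filter.1 hg).2
    rw [Finset.mem_biUnion]
    refine ⟨f, Finset.mem_univ _, ?_⟩
    rw [if_pos (emb_injective hK triangles_card hf)]
    simp only [Finset.mem_filter, Finset.mem_univ, true_and]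
    exact emb_pull hD hK g f hf
  have h2 : ∀ f : Fin a → Fin k, ((if Function.Injective f then
          Finset.univ.filter (fun g : Fin k → V => Emb K (triangles D) (g ∘ f)) else
            ∅).card : ℝ) ≤ (Fintype.card V : ℝ) ^ (k - a) *
        ((Finset.univ.filter (fun h : Fin a → V => Emb K (triangles D) h)).card : ℝ) := by
    intro f
    by_cases hf : Function.Injective f
    · rw [if_pos hf]
      have h3 := sum_comp_eq (V := V) f hf (fun h => if Emb K (triangles D) h then 1 else 0)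
      rw [Finset.sum_ite, Finset.sum_const, Finset.sum_const_zero, add_zero, nsmul_eq_mul,
        mul_one, Finset.sum_ite, Finset.sum_const, Finset.sum_const_zero, add_zero,
        nsmul_eq_mul, mul_one] at h3
      simp only [Fintype.card_fin] at h3
      exact le_of_eq h3
    · rw [if_neg hf]
      simp only [Finset.card_empty, Nat.cast_zero]
      positivity
  have h3 := (Finset.card_le_card h1).trans Finset.card_biUnion_le
  have h4 : ((Finset.univ.filter (fun g : Fin k → V =>
        ∃ f : Fin a → Fin k, Emb K (triangles (pull D g)) f)).card : ℝ)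
      ≤ ∑ f : Fin a → Fin k, ((if Function.Injective f then
          Finset.univ.filter (fun g : Fin k → V => Emb K (triangles D) (g ∘ f)) else
            ∅).card : ℝ) := by
    exact_mod_cast h3
  refine h4.trans ((Finset.sum_le_sum fun f _ => h2 f).trans ?_)
  rw [Finset.sum_const, Finset.card_univ, nsmul_eq_mul, Fintype.card_fun, Fintype.card_fin,
    Fintype.card_fin]
  push_cast
  exact le_rfl

end

/-- the four patterns -/
def P4 : Finset (Finset (Fin 4)) := {{0, 1, 2}, {0, 1, 3}, {0, 2, 3}}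

def P5 : Finset (Finset (Fin 5)) := {{0, 1, 2}, {0, 3, 4}, {1, 3, 4}, {2, 3, 4}}

def C5 : Finset (Finset (Fin 5)) := {{0, 1, 2}, {3, 1, 2}, {0, 4, 2}, {0, 3, 4}, {1, 3, 4}}

def P7 : Finset (Finset (Fin 7)) :=
  {{0, 1, 3}, {1, 2, 4}, {2, 3, 5}, {3, 4, 6}, {4, 5, 0}, {5, 6, 1},
    {6, 0, 2}, {0, 1, 5}, {1, 2, 6}, {2, 3, 0}, {3, 4, 1}, {4, 5, 2}, {5, 6, 3}, {6, 0, 4}}

lemma good4 : Good P4 := by
  unfold Good P4
  decide

lemma good5 : Good P5 := by
  unfold Good P5
  decide +kernel

lemma goodC : Good C5 := by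
  unfold Good C5
  decide +kernel

lemma good7 : Good P7 := by
  unfold Good P7
  decide +kernel

/-- without embeddings of the four patterns the configurations do not occur -/
lemma free_of_no_emb {V : Type*} [Fintype V] [DecidableEq V] (H : Finset (Finset V))
    (h4 : ¬ ∃ f : Fin 4 → V, Emb P4 H f) (h5 : ¬ ∃ f : Fin 5 → V, Emb P5 H f)
    (hC : ¬ ∃ f : Fin 5 → V, Emb C5 H f) (h7 : ¬ ∃ f : Fin 7 → V, Emb P7 H f) :
    Free3 H ∧ Free7 H := by
  refine ⟨⟨?_, ?_, ?_⟩, ?_⟩
  · intro d p q r h1 h2 h3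
    refine h4 ⟨![d, p, q, r], ?_⟩
    intro e he
    simp only [P4, Finset.mem_insert, Finset.mem_singleton] at he
    rcases he with rfl | rfl | rfl
    · simpa [Finset.image_insert] using h1
    · simpa [Finset.image_insert] using h2
    · simpa [Finset.image_insert] using h3
  · intro p q r s t h1 h2 h3 h4'
    refine h5 ⟨![p, q, r, s, t], ?_⟩
    intro e he
    simp only [P5, Finset.mem_insert, Finset.mem_singleton] at he
    rcases he with rfl | rfl | rfl | rfl
    · simpa [Finset.image_insert] using h1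
    · simpa [Finset.image_insert] using h2
    · simpa [Finset.image_insert] using h3
    · simpa [Finset.image_insert] using h4'
  · intro a b c v w h1 h2 h3 h4' h5'
    refine hC ⟨![a, b, c, v, w], ?_⟩
    intro e he
    simp only [C5, Finset.mem_insert, Finset.mem_singleton] at he
    rcases he with rfl | rfl | rfl | rfl | rfl
    · simpa [Finset.image_insert] using h1
    · simpa [Finset.image_insert] using h2
    · simpa [Finset.image_insert] using h3
    · simpa [Finset.image_insert] using h4'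
    · simpa [Finset.image_insert] using h5'
  · intro f hf
    exact h7 ⟨fun i : Fin 7 => f i, hf⟩

section

variable {V : Type} [Fintype V] [DecidableEq V] {D : V → V → Prop}

/-- some pattern has positive density -/
theorem pattern_density (hD : ∀ u, ¬ D u u) (ε : ℝ) (hε : 0 < ε) (k : ℕ) (hk7 : 7 ≤ k)
    (hk : 3 * (1 / 27 + ε) ≤ ε / 2 * k) (hV : 0 < Fintype.card V)
    (hden : (1 / 27 + ε) * (Fintype.card V : ℝ) ^ 3 ≤ ((triangles D).card : ℝ)) :
    (∃ K : Finset (Finset (Fin 4)), K = P4 ∧ ε / 2 / (k : ℝ) ^ 7 * (Fintype.card V : ℝ) ^ 4 ≤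
      ((Finset.univ.filter (fun h : Fin 4 → V => Emb K (triangles D) h)).card : ℝ)) ∨
    (∃ K : Finset (Finset (Fin 5)), (K = P5 ∨ K = C5) ∧
      ε / 2 / (k : ℝ) ^ 7 * (Fintype.card V : ℝ) ^ 5 ≤
      ((Finset.univ.filter (fun h : Fin 5 → V => Emb K (triangles D) h)).card : ℝ)) ∨
    (∃ K : Finset (Finset (Fin 7)), K = P7 ∧ ε / 2 / (k : ℝ) ^ 7 * (Fintype.card V : ℝ) ^ 7 ≤
      ((Finset.univ.filter (fun h : Fin 7 → V => Emb K (triangles D) h)).card : ℝ)) := by
  classical
  by_contra hcon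
  push Not at hcon
  obtain ⟨c4, c5, c7⟩ := hcon
  have b4 := c4 P4 rfl
  have b5 := c5 P5 (Or.inl rfl)
  have bC := c5 C5 (Or.inr rfl)
  have b7 := c7 P7 rfl
  set n : ℝ := (Fintype.card V : ℝ) with hn
  have hn0 : 0 < n := by rw [hn]; exact_mod_cast hV
  have hkpos : (0 : ℝ) < (k : ℝ) := by
    have : 0 < k := by omega
    exact_mod_cast this
  have hk1 : (1 : ℝ) ≤ (k : ℝ) := by
    have : 1 ≤ k := by omega
    exact_mod_cast this
  -- the set of good maps
  set G : Finset (Fin k → V) := Finset.univ.filter (fun g =>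
    (∃ f : Fin 4 → Fin k, Emb P4 (triangles (pull D g)) f) ∨
    (∃ f : Fin 5 → Fin k, Emb P5 (triangles (pull D g)) f) ∨
    (∃ f : Fin 5 → Fin k, Emb C5 (triangles (pull D g)) f) ∨
    (∃ f : Fin 7 → Fin k, Emb P7 (triangles (pull D g)) f)) with hG
  have hGcard : (G.card : ℝ) < 2 * ε * n ^ k := by
    have hsub : G ⊆ (Finset.univ.filter (fun g : Fin k → V =>
        ∃ f : Fin 4 → Fin k, Emb P4 (triangles (pull D g)) f)) ∪
        ((Finset.univ.filter (fun g : Fin k → V =>
        ∃ f : Fin 5 → Fin k, Emb P5 (triangles (pull D g)) f)) ∪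
        ((Finset.univ.filter (fun g : Fin k → V =>
        ∃ f : Fin 5 → Fin k, Emb C5 (triangles (pull D g)) f)) ∪
        (Finset.univ.filter (fun g : Fin k → V =>
        ∃ f : Fin 7 → Fin k, Emb P7 (triangles (pull D g)) f)))) := by
      intro g hg
      simp only [hG, Finset.mem_filter, Finset.mem_univ, true_and] at hg
      simp only [Finset.mem_union, Finset.mem_filter, Finset.mem_univ, true_and]
      exact hg
    have h1 := (Finset.card_le_card hsub).trans ((Finset.card_union_le _ _).trans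
      (Nat.add_le_add_left ((Finset.card_union_le _ _).trans
        (Nat.add_le_add_left (Finset.card_union_le _ _) _)) _))
    have h2 : (G.card : ℝ) ≤ ((Finset.univ.filter (fun g : Fin k → V =>
        ∃ f : Fin 4 → Fin k, Emb P4 (triangles (pull D g)) f)).card : ℝ) +
        (((Finset.univ.filter (fun g : Fin k → V =>
        ∃ f : Fin 5 → Fin k, Emb P5 (triangles (pull D g)) f)).card : ℝ) +
        (((Finset.univ.filter (fun g : Fin k → V =>
        ∃ f : Fin 5 → Fin k, Emb C5 (triangles (pull D g)) f)).card : ℝ) +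
        ((Finset.univ.filter (fun g : Fin k → V =>
        ∃ f : Fin 7 → Fin k, Emb P7 (triangles (pull D g)) f)).card : ℝ))) := by
      exact_mod_cast h1
    have key : ∀ (a : ℕ) (K : Finset (Finset (Fin a))), Good K → a ≤ 7 →
        ((Finset.univ.filter (fun h : Fin a → V => Emb K (triangles D) h)).card : ℝ)
          < ε / 2 / (k : ℝ) ^ 7 * n ^ a →
        ((Finset.univ.filter (fun g : Fin k → V =>
          ∃ f : Fin a → Fin k, Emb K (triangles (pull D g)) f)).card : ℝ) < ε / 2 * n ^ k := by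
      intro a K hK ha hlt
      have h3 := pat_count (V := V) hD K hK k
      rw [← hn] at h3
      refine lt_of_le_of_lt h3 ?_
      have h4 : (k : ℝ) ^ a * (n ^ (k - a) *
          ((Finset.univ.filter (fun h : Fin a → V => Emb K (triangles D) h)).card : ℝ))
          < (k : ℝ) ^ a * (n ^ (k - a) * (ε / 2 / (k : ℝ) ^ 7 * n ^ a)) := by
        have h5 : (0 : ℝ) < (k : ℝ) ^ a := by positivity
        have h6 : (0 : ℝ) < n ^ (k - a) := by positivity
        exact mul_lt_mul_of_pos_left (mul_lt_mul_of_pos_left hlt h6) h5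
      refine lt_of_lt_of_le h4 ?_
      have h7 : n ^ (k - a) * n ^ a = n ^ k := by
        rw [← pow_add]
        congr 1
        omega
      have h8 : (k : ℝ) ^ a ≤ (k : ℝ) ^ 7 := pow_le_pow_right₀ hk1 ha
      calc (k : ℝ) ^ a * (n ^ (k - a) * (ε / 2 / (k : ℝ) ^ 7 * n ^ a))
          = ((k : ℝ) ^ a / (k : ℝ) ^ 7) * (ε / 2 * (n ^ (k - a) * n ^ a)) := by ring
        _ ≤ 1 * (ε / 2 * (n ^ (k - a) * n ^ a)) := by
            refine mul_le_mul_of_nonneg_right ?_ (by positivity)
            rw [div_le_one (by positivity)]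
            exact h8
        _ = ε / 2 * n ^ k := by rw [h7, one_mul]
    have k4 := key 4 P4 good4 (by norm_num) b4
    have k5 := key 5 P5 good5 (by norm_num) b5
    have kC := key 5 C5 goodC (by norm_num) bC
    have k7 := key 7 P7 good7 (by norm_num) b7
    linarith
  -- total count
  have hlow := sum_oc_pull (V := V) hD k
  rw [← hn] at hlow
  have hoc : oc (triangles D) = 6 * ((triangles D).card : ℝ) := oc_eq _ triangles_card
  have hupp : ∑ g : Fin k → V, oc (triangles (pull D g))
      ≤ n ^ k * (6 * (k : ℝ) ^ 3 / 27) + (G.card : ℝ) * (k : ℝ) ^ 3 := by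
    have h1 : ∀ g : Fin k → V, oc (triangles (pull D g))
        ≤ 6 * (k : ℝ) ^ 3 / 27 + (if g ∈ G then (k : ℝ) ^ 3 else 0) := by
      intro g
      by_cases hg : g ∈ G
      · rw [if_pos hg]
        have h2 := oc_le (triangles (pull D g))
        rw [Fintype.card_fin] at h2
        have h3 : (0 : ℝ) ≤ 6 * (k : ℝ) ^ 3 / 27 := by positivity
        linarith
      · rw [if_neg hg, add_zero]
        simp only [hG, Finset.mem_filter, Finset.mem_univ, true_and, not_or] at hg
        obtain ⟨g4, g5, gC, g7⟩ := hg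
        obtain ⟨f3, f7⟩ := free_of_no_emb _ g4 g5 gC g7
        have h2 := gap_free (pull D g) f3 f7 (fun _ => 1 / (k : ℝ)) (by
          refine ⟨fun _ => by positivity, ?_⟩
          rw [Finset.sum_const, Finset.card_univ, Fintype.card_fin, nsmul_eq_mul]
          field_simp)
        have h3 := oc_lagr (triangles (pull D g)) (by rw [Fintype.card_fin]; omega)
        rw [Fintype.card_fin] at h3
        rw [h3]
        have h4 : (0 : ℝ) ≤ 6 * (k : ℝ) ^ 3 := by positivity
        nlinarith [mul_le_mul_of_nonneg_left h2 h4]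
    refine (Finset.sum_le_sum fun g _ => h1 g).trans ?_
    rw [Finset.sum_add_distrib, Finset.sum_const, Finset.card_univ, Fintype.card_fun,
      Fintype.card_fin, nsmul_eq_mul, Finset.sum_ite_mem, Finset.univ_inter, Finset.sum_const,
      nsmul_eq_mul]
    push_cast
    rw [← hn]
  rw [hoc] at hlow
  have h1 : ((k : ℝ) ^ 3 - 3 * (k : ℝ) ^ 2) * (n ^ (k - 3) * (6 * ((1 / 27 + ε) * n ^ 3)))
      ≤ ((k : ℝ) ^ 3 - 3 * (k : ℝ) ^ 2) * (n ^ (k - 3) * (6 * ((triangles D).card : ℝ))) := by
    have hk3 : (0 : ℝ) ≤ (k : ℝ) ^ 3 - 3 * (k : ℝ) ^ 2 := by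
      have : (3 : ℝ) ≤ (k : ℝ) := by
        have : 3 ≤ k := by omega
        exact_mod_cast this
      nlinarith [sq_nonneg (k : ℝ)]
    refine mul_le_mul_of_nonneg_left (mul_le_mul_of_nonneg_left ?_ (by positivity)) hk3
    linarith
  have h2 : n ^ (k - 3) * n ^ 3 = n ^ k := by
    rw [← pow_add]
    congr 1
    omega
  have h3 : ((k : ℝ) ^ 3 - 3 * (k : ℝ) ^ 2) * (n ^ (k - 3) * (6 * ((1 / 27 + ε) * n ^ 3)))
      = (((k : ℝ) ^ 3 - 3 * (k : ℝ) ^ 2) * (6 * (1 / 27 + ε))) * n ^ k := by
    rw [← h2]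
    ring
  have h4 : (((k : ℝ) ^ 3 - 3 * (k : ℝ) ^ 2) * (6 * (1 / 27 + ε))) * n ^ k
      < (6 * (k : ℝ) ^ 3 / 27 + 2 * ε * (k : ℝ) ^ 3) * n ^ k := by
    have h5 : (G.card : ℝ) * (k : ℝ) ^ 3 < 2 * ε * n ^ k * (k : ℝ) ^ 3 :=
      mul_lt_mul_of_pos_right hGcard (by positivity)
    rw [← h3]
    calc _ ≤ _ := h1
      _ ≤ _ := hlow
      _ ≤ _ := hupp
      _ < n ^ k * (6 * (k : ℝ) ^ 3 / 27) + 2 * ε * n ^ k * (k : ℝ) ^ 3 := by linarith
      _ = _ := by ring
  have h5 : ((k : ℝ) ^ 3 - 3 * (k : ℝ) ^ 2) * (6 * (1 / 27 + ε))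
      < 6 * (k : ℝ) ^ 3 / 27 + 2 * ε * (k : ℝ) ^ 3 :=
    lt_of_mul_lt_mul_right h4 (by positivity)
  -- 6 k^3 ε - 18 k^2 (1/27+ε) < 2 ε k^3, contradiction with hk
  have h6 : 18 * (k : ℝ) ^ 2 * (1 / 27 + ε) ≤ 3 * ε * (k : ℝ) ^ 3 := by
    have := mul_le_mul_of_nonneg_left hk (show (0 : ℝ) ≤ 6 * (k : ℝ) ^ 2 by positivity)
    nlinarith
  have h7 : 0 < ε * (k : ℝ) ^ 3 := by positivity
  nlinarith

end

end Pool.Agent.Lib.MP_bc13a4_co.Tri
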