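import Mathlib

set_option autoImplicit false

namespace Pool.Agent.Lib.MP_bc13a4_co.Tri

/-- Certificate trees. `lf kind code` is a leaf whose vertex indices are the base 16 digits of
`code`; `sp i j a b` branches on the arc `i → j`; `cv i j a b` introduces a vertex covering the
pair `i, j`; `ud a b c t` introduces a vertex not dominated by the edge `a b c`. -/
inductive T where
  | lf (kind code : Nat) : T
  | sp (i j : Nat) (a b : T) : T
  | cv (i j : Nat) (a b : T) : T
  | ud (a b c : Nat) (t : T) : T

/-- digit -/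
def x (c i : Nat) : Nat := c / 16 ^ i % 16

/-- known fact -/
def pos (k P i j : Nat) : Bool := decide (i < k) && (decide (j < k) && P.testBit (16 * i + j))

/-- known edge -/
def edge (k P a b c : Nat) : Bool :=
  (pos k P a b && (pos k P b c && pos k P c a)) || (pos k P b a && (pos k P c b && pos k P a c))

/-- known non-edge -/
def nonedge (k N a b c : Nat) : Bool :=
  (pos k N a b || (pos k N b c || pos k N c a)) && (pos k N b a || (pos k N c b || pos k N a c))

/-- add a fact -/
def add (P i j : Nat) : Nat := P ||| 2 ^ (16 * i + j)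

/-- all indices below `n` -/
def allBelow : Nat → (Nat → Bool) → Bool
  | 0, _ => true
  | n + 1, f => f n && allBelow n f

/-- membership in the list of undominated facts -/
def memU (z a b c : Nat) : List (Nat × Nat × Nat × Nat) → Bool
  | [] => false
  | (z', a', b', c') :: l =>
      (decide (z = z') && (decide (a = a') && (decide (b = b') && decide (c = c')))) ||
        memU z a b c l

/-- the seven-vertex pattern on the digits of `c` -/
def pal (k P c : Nat) : Bool :=
  edge k P (x c 0) (x c 1) (x c 3) && (edge k P (x c 1) (x c 2) (x c 4) &&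
  (edge k P (x c 2) (x c 3) (x c 5) && (edge k P (x c 3) (x c 4) (x c 6) &&
  (edge k P (x c 4) (x c 5) (x c 0) && (edge k P (x c 5) (x c 6) (x c 1) &&
  (edge k P (x c 6) (x c 0) (x c 2) &&
  (edge k P (x c 0) (x c 1) (x c 5) && (edge k P (x c 1) (x c 2) (x c 6) &&
  (edge k P (x c 2) (x c 3) (x c 0) && (edge k P (x c 3) (x c 4) (x c 1) &&
  (edge k P (x c 4) (x c 5) (x c 2) && (edge k P (x c 5) (x c 6) (x c 3) &&
  (edge k P (x c 6) (x c 0) (x c 4))))))))))))))

/-- leaf test -/
def leaf (kind c k P N : Nat) (U : List (Nat × Nat × Nat × Nat)) : Bool :=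
  match kind with
  | 0 => edge k P (x c 0) (x c 1) (x c 2) &&
      (edge k P (x c 0) (x c 1) (x c 3) && edge k P (x c 0) (x c 2) (x c 3))
  | 1 => edge k P (x c 2) (x c 3) (x c 4) && (edge k P (x c 2) (x c 0) (x c 1) &&
      (edge k P (x c 3) (x c 0) (x c 1) && edge k P (x c 4) (x c 0) (x c 1)))
  | 2 => edge k P (x c 0) (x c 1) (x c 2) && (edge k P (x c 1) (x c 2) (x c 3) &&
      (edge k P (x c 2) (x c 3) (x c 4) && (edge k P (x c 3) (x c 4) (x c 0) &&
        edge k P (x c 4) (x c 0) (x c 1))))
  | 3 => pal k P c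
  | 4 => memU (x c 0) (x c 1) (x c 2) (x c 3) U &&
      (edge k P (x c 0) (x c 1) (x c 2) ||
        (edge k P (x c 0) (x c 2) (x c 3) || edge k P (x c 0) (x c 1) (x c 3)))
  | _ => pos k P (x c 0) (x c 1) && pos k N (x c 0) (x c 1)

/-- The checker. -/
def check (tour : Bool) : T → Nat → Nat → Nat → List (Nat × Nat × Nat × Nat) → Bool
  | .lf kind c, k, P, N, U => leaf kind c k P N U
  | .sp i j a b, k, P, N, U =>
      decide (i < k) && (decide (j < k) && (decide (i ≠ j) &&
        (check tour a k (add P i j) (if tour then add N j i else N) U &&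
          check tour b k (add P j i) (add N i j) U)))
  | .cv i j a b, k, P, N, U =>
      decide (i < k) && (decide (j < k) && (decide (i ≠ j) && (decide (k < 16) &&
        (allBelow k (fun m => decide (m = i) || (decide (m = j) || nonedge k N i j m)) &&
          (check tour a (k + 1) (add (add (add P i j) j k) k i)
              (if tour then add (add (add N j i) k j) i k else N) U &&
            check tour b (k + 1) (add (add (add P j i) k j) i k)
              (if tour then add (add (add N i j) j k) k i else N) U)))))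
  | .ud a b c t, k, P, N, U =>
      decide (k < 16) && (edge k P a b c &&
        (allBelow k (fun m => decide (m = a) || (decide (m = b) || (decide (m = c) ||
            (edge k P m a b || (edge k P m b c || edge k P m a c))))) &&
          check tour t (k + 1) P N ((k, a, b, c) :: U)))

lemma allBelow_iff {n : Nat} {f : Nat → Bool} (h : allBelow n f = true) :
    ∀ m < n, f m = true := by
  induction n with
  | zero => intro m hm; omega
  | succ n ih =>
    intro m hm
    simp only [allBelow, Bool.and_eq_true] at h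
    rcases Nat.lt_succ_iff_lt_or_eq.mp hm with h1 | h1
    · exact ih h.2 m h1
    · rw [h1]; exact h.1

lemma testBit_add {P i j a b : Nat} (hj : j < 16) (hb : b < 16)
    (h : (add P i j).testBit (16 * a + b) = true) :
    P.testBit (16 * a + b) = true ∨ (a = i ∧ b = j) := by
  unfold add at h
  rw [Nat.testBit_or, Nat.testBit_two_pow, Bool.or_eq_true, decide_eq_true_eq] at h
  rcases h with h | h
  · exact Or.inl h
  · right
    omega

section sound

variable {V : Type*} (S : V → Prop) (D : V → V → Prop)

/-- the edge predicate of the 3-graph of directed triangles -/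
def E (D : V → V → Prop) (u v w : V) : Prop :=
  (u ≠ v ∧ v ≠ w ∧ u ≠ w) ∧ ((D u v ∧ D v w ∧ D w u) ∨ (D v u ∧ D w v ∧ D u w))

lemma E_swap12 {D : V → V → Prop} {u v w : V} (h : E D u v w) : E D v u w := by
  obtain ⟨⟨h1, h2, h3⟩, h4⟩ := h
  refine ⟨⟨h1.symm, h3, h2⟩, ?_⟩
  rcases h4 with ⟨a, b, c⟩ | ⟨a, b, c⟩
  · exact Or.inr ⟨a, c, b⟩
  · exact Or.inl ⟨a, c, b⟩

lemma E_rot {D : V → V → Prop} {u v w : V} (h : E D u v w) : E D v w u := by
  obtain ⟨⟨h1, h2, h3⟩, h4⟩ := h
  refine ⟨⟨h2, h3.symm, h1.symm⟩, ?_⟩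
  rcases h4 with ⟨a, b, c⟩ | ⟨a, b, c⟩
  · exact Or.inl ⟨b, c, a⟩
  · exact Or.inr ⟨b, c, a⟩

lemma E_swap23 {D : V → V → Prop} {u v w : V} (h : E D u v w) : E D u w v :=
  E_rot (E_swap12 h)

/-- The hypotheses on the support. -/
structure Hyp : Prop where
  cover : ∀ u v, S u → S v → u ≠ v → ∃ w, S w ∧ E D u v w
  undom : ∀ a b c, S a → S b → S c → E D a b c →
    ∃ z, S z ∧ z ≠ a ∧ z ≠ b ∧ z ≠ c ∧ ¬ E D z a b ∧ ¬ E D z b c ∧ ¬ E D z a c
  four : ∀ d p q r, E D d p q → E D d p r → E D d q r → False
  five : ∀ s t p q r, E D p q r → E D p s t → E D q s t → E D r s t → False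
  cyc : ∀ a b c d e, E D a b c → E D b c d → E D c d e → E D d e a → E D e a b → False
  pal : ∀ f : Nat → V, E D (f 0) (f 1) (f 3) → E D (f 1) (f 2) (f 4) → E D (f 2) (f 3) (f 5) →
    E D (f 3) (f 4) (f 6) → E D (f 4) (f 5) (f 0) → E D (f 5) (f 6) (f 1) →
    E D (f 6) (f 0) (f 2) → E D (f 0) (f 1) (f 5) → E D (f 1) (f 2) (f 6) →
    E D (f 2) (f 3) (f 0) → E D (f 3) (f 4) (f 1) → E D (f 4) (f 5) (f 2) →
    E D (f 5) (f 6) (f 3) → E D (f 6) (f 0) (f 4) → False

/-- The invariant of the checker. -/
structure Inv (k P N : Nat) (U : List (Nat × Nat × Nat × Nat)) (v : Nat → V) : Prop where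
  le : k ≤ 16
  mem : ∀ i < k, S (v i)
  inj : ∀ i < k, ∀ j < k, i ≠ j → v i ≠ v j
  hP : ∀ i < k, ∀ j < k, P.testBit (16 * i + j) = true → D (v i) (v j)
  hN : ∀ i < k, ∀ j < k, N.testBit (16 * i + j) = true → ¬ D (v i) (v j)
  hU : ∀ z a b c, memU z a b c U = true → z < k ∧ a < k ∧ b < k ∧ c < k ∧
    ¬ E D (v z) (v a) (v b) ∧ ¬ E D (v z) (v b) (v c) ∧ ¬ E D (v z) (v a) (v c)

variable {S D}

lemma pos_sound {k P N : Nat} {U : List (Nat × Nat × Nat × Nat)} {v : Nat → V}
    (h : Inv S D k P N U v) {i j : Nat} (hp : pos k P i j = true) :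
    i < k ∧ j < k ∧ D (v i) (v j) := by
  simp only [pos, Bool.and_eq_true, decide_eq_true_eq] at hp
  exact ⟨hp.1, hp.2.1, h.hP i hp.1 j hp.2.1 hp.2.2⟩

lemma neg_sound {k P N : Nat} {U : List (Nat × Nat × Nat × Nat)} {v : Nat → V}
    (h : Inv S D k P N U v) {i j : Nat} (hp : pos k N i j = true) :
    i < k ∧ j < k ∧ ¬ D (v i) (v j) := by
  simp only [pos, Bool.and_eq_true, decide_eq_true_eq] at hp
  exact ⟨hp.1, hp.2.1, h.hN i hp.1 j hp.2.1 hp.2.2⟩

lemma edge_sound {k P N : Nat} {U : List (Nat × Nat × Nat × Nat)} {v : Nat → V}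
    (h : Inv S D k P N U v) (hD : ∀ u, ¬ D u u) {a b c : Nat} (he : edge k P a b c = true) :
    E D (v a) (v b) (v c) := by
  have key : ∀ i j : Nat, pos k P i j = true → v i ≠ v j := by
    intro i j hp heq
    have := (pos_sound h hp).2.2
    rw [heq] at this
    exact hD _ this
  simp only [edge, Bool.or_eq_true, Bool.and_eq_true] at he
  rcases he with ⟨h1, h2, h3⟩ | ⟨h1, h2, h3⟩
  · exact ⟨⟨key _ _ h1, key _ _ h2, (key _ _ h3).symm⟩,
      Or.inl ⟨(pos_sound h h1).2.2, (pos_sound h h2).2.2, (pos_sound h h3).2.2⟩⟩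
  · exact ⟨⟨(key _ _ h1).symm, (key _ _ h2).symm, key _ _ h3⟩,
      Or.inr ⟨(pos_sound h h1).2.2, (pos_sound h h2).2.2, (pos_sound h h3).2.2⟩⟩

lemma nonedge_sound {k P N : Nat} {U : List (Nat × Nat × Nat × Nat)} {v : Nat → V}
    (h : Inv S D k P N U v) {a b c : Nat} (he : nonedge k N a b c = true) :
    ¬ E D (v a) (v b) (v c) := by
  simp only [nonedge, Bool.or_eq_true, Bool.and_eq_true] at he
  rintro ⟨-, ⟨h1, h2, h3⟩ | ⟨h1, h2, h3⟩⟩
  · rcases he.1 with h4 | h4 | h4
    · exact (neg_sound h h4).2.2 h1
    · exact (neg_sound h h4).2.2 h2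
    · exact (neg_sound h h4).2.2 h3
  · rcases he.2 with h4 | h4 | h4
    · exact (neg_sound h h4).2.2 h1
    · exact (neg_sound h h4).2.2 h2
    · exact (neg_sound h h4).2.2 h3

lemma leaf_sound (H : Hyp S D) (hD : ∀ u, ¬ D u u) {kind c k P N : Nat}
    {U : List (Nat × Nat × Nat × Nat)} {v : Nat → V}
    (h : Inv S D k P N U v) (hl : leaf kind c k P N U = true) : False := by
  unfold leaf at hl
  split at hl
  · simp only [Bool.and_eq_true] at hl
    exact H.four _ _ _ _ (edge_sound h hD hl.1) (edge_sound h hD hl.2.1)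
      (edge_sound h hD hl.2.2)
  · simp only [Bool.and_eq_true] at hl
    exact H.five _ _ _ _ _ (edge_sound h hD hl.1) (edge_sound h hD hl.2.1)
      (edge_sound h hD hl.2.2.1) (edge_sound h hD hl.2.2.2)
  · simp only [Bool.and_eq_true] at hl
    exact H.cyc _ _ _ _ _ (edge_sound h hD hl.1) (edge_sound h hD hl.2.1)
      (edge_sound h hD hl.2.2.1) (edge_sound h hD hl.2.2.2.1) (edge_sound h hD hl.2.2.2.2)
  · simp only [pal, Bool.and_eq_true] at hl
    obtain ⟨h1, h2, h3, h4, h5, h6, h7, h8, h9, h10, h11, h12, h13, h14⟩ := hl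
    exact H.pal (fun i => v (x c i)) (edge_sound h hD h1) (edge_sound h hD h2)
      (edge_sound h hD h3) (edge_sound h hD h4) (edge_sound h hD h5) (edge_sound h hD h6)
      (edge_sound h hD h7) (edge_sound h hD h8) (edge_sound h hD h9) (edge_sound h hD h10)
      (edge_sound h hD h11) (edge_sound h hD h12) (edge_sound h hD h13) (edge_sound h hD h14)
  · simp only [Bool.and_eq_true, Bool.or_eq_true] at hl
    obtain ⟨-, -, -, -, h1, h2, h3⟩ := h.hU _ _ _ _ hl.1
    rcases hl.2 with h4 | h4 | h4
    · exact h1 (edge_sound h hD h4)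
    · exact h2 (edge_sound h hD h4)
    · exact h3 (edge_sound h hD h4)
  · simp only [Bool.and_eq_true] at hl
    exact (neg_sound h hl.2).2.2 (pos_sound h hl.1).2.2

lemma inv_addP {k P N : Nat} {U : List (Nat × Nat × Nat × Nat)} {v : Nat → V}
    (h : Inv S D k P N U v) {i j : Nat} (hj : j < k) (hd : D (v i) (v j)) :
    Inv S D k (add P i j) N U v := by
  refine ⟨h.le, h.mem, h.inj, ?_, h.hN, h.hU⟩
  intro a ha b hb hab
  have hk := h.le
  rcases testBit_add (by omega) (by omega) hab with h1 | ⟨h1, h2⟩
  · exact h.hP a ha b hb h1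
  · subst h1; subst h2; exact hd

lemma inv_addN {k P N : Nat} {U : List (Nat × Nat × Nat × Nat)} {v : Nat → V}
    (h : Inv S D k P N U v) {i j : Nat} (hj : j < k) (hd : ¬ D (v i) (v j)) :
    Inv S D k P (add N i j) U v := by
  refine ⟨h.le, h.mem, h.inj, h.hP, ?_, h.hU⟩
  intro a ha b hb hab
  have hk := h.le
  rcases testBit_add (by omega) (by omega) hab with h1 | ⟨h1, h2⟩
  · exact h.hN a ha b hb h1
  · subst h1; subst h2; exact hd

/-- bits of `P` only at indices below `k` -/
def Low (k P : Nat) : Prop := ∀ i j, j < 16 → P.testBit (16 * i + j) = true → i < k ∧ j < k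

lemma low_add {k P i j : Nat} (h : Low k P) (hi : i < k) (hj : j < k) (hk : k ≤ 16) :
    Low k (add P i j) := by
  intro a b hb hab
  rcases testBit_add (by omega) hb hab with h1 | ⟨h1, h2⟩
  · exact h a b hb h1
  · subst h1; subst h2; exact ⟨hi, hj⟩

lemma low_mono {k P : Nat} (h : Low k P) : Low (k + 1) P := fun a b hb hab =>
  ⟨by have := (h a b hb hab).1; omega, by have := (h a b hb hab).2; omega⟩

lemma memU_bound {k P N : Nat} {U : List (Nat × Nat × Nat × Nat)} {v : Nat → V}
    (h : Inv S D k P N U v) (hP : Low k P) (hN : Low k N) {w : V} (hk : k < 16) (hw : S w)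
    (hne : ∀ i < k, v i ≠ w) : Inv S D (k + 1) P N U (Function.update v k w) := by
  have hv : ∀ i < k, Function.update v k w i = v i := fun i hi =>
    Function.update_of_ne (by omega) _ _
  have hvk : Function.update v k w k = w := Function.update_self _ _ _
  refine ⟨by omega, ?_, ?_, ?_, ?_, ?_⟩
  · intro i hi
    rcases Nat.lt_succ_iff_lt_or_eq.mp hi with h1 | h1
    · rw [hv i h1]; exact h.mem i h1
    · rw [h1, hvk]; exact hw
  · intro i hi j hj hij
    rcases Nat.lt_succ_iff_lt_or_eq.mp hi with h1 | h1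
    · rcases Nat.lt_succ_iff_lt_or_eq.mp hj with h2 | h2
      · rw [hv i h1, hv j h2]; exact h.inj i h1 j h2 hij
      · rw [hv i h1, h2, hvk]; exact hne i h1
    · rcases Nat.lt_succ_iff_lt_or_eq.mp hj with h2 | h2
      · rw [hv j h2, h1, hvk]; exact (hne j h2).symm
      · omega
  · intro i hi j hj hij
    have := hP i j (by omega) hij
    rw [hv i this.1, hv j this.2]
    exact h.hP i this.1 j this.2 hij
  · intro i hi j hj hij
    have := hN i j (by omega) hij
    rw [hv i this.1, hv j this.2]
    exact h.hN i this.1 j this.2 hij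
  · intro z a b c hm
    obtain ⟨h1, h2, h3, h4, h5, h6, h7⟩ := h.hU z a b c hm
    rw [hv z h1, hv a h2, hv b h3, hv c h4]
    exact ⟨by omega, by omega, by omega, by omega, h5, h6, h7⟩

theorem sound (H : Hyp S D) (hD : ∀ u, ¬ D u u) (tour : Bool)
    (hT : tour = true → ∀ u v, S u → S v → D u v → ¬ D v u) :
    ∀ (t : T) (k P N : Nat) (U : List (Nat × Nat × Nat × Nat)) (v : Nat → V),
      check tour t k P N U = true → Inv S D k P N U v → Low k P → Low k N → False := by
  intro t
  induction t with
  | lf kind c =>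
    intro k P N U v hc h _ _
    exact leaf_sound H hD h hc
  | sp i j a b iha ihb =>
    intro k P N U v hc h lP lN
    simp only [check, Bool.and_eq_true, decide_eq_true_eq] at hc
    obtain ⟨hi, hj, hij, ha, hb⟩ := hc
    by_cases hd : D (v i) (v j)
    · have h1 := inv_addP h hj hd
      cases tour with
      | false => exact iha _ _ _ _ _ ha h1 (low_add lP hi hj h.le) lN
      | true =>
        have h2 : ¬ D (v j) (v i) := hT rfl _ _ (h.mem i hi) (h.mem j hj) hd
        exact iha _ _ _ _ _ ha (inv_addN h1 hi h2) (low_add lP hi hj h.le)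
          (low_add lN hj hi h.le)
    · have h1 := inv_addN h hj hd
      have h2 : D (v j) (v i) := by
        obtain ⟨w, -, -, h3⟩ := H.cover (v i) (v j) (h.mem i hi) (h.mem j hj)
          (h.inj i hi j hj hij)
        rcases h3 with h3 | h3
        · exact absurd h3.1 hd
        · exact h3.1
      exact ihb _ _ _ _ _ hb (inv_addP h1 hi h2) (low_add lP hj hi h.le)
        (low_add lN hi hj h.le)
  | cv i j a b iha ihb =>
    intro k P N U v hc h lP lN
    simp only [check, Bool.and_eq_true, decide_eq_true_eq] at hc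
    obtain ⟨hi, hj, hij, hk, hall, ha, hb⟩ := hc
    obtain ⟨w, hw, hE⟩ := H.cover (v i) (v j) (h.mem i hi) (h.mem j hj) (h.inj i hi j hj hij)
    have hne : ∀ m < k, v m ≠ w := by
      intro m hm heq
      have h1 := allBelow_iff hall m hm
      simp only [Bool.or_eq_true, decide_eq_true_eq] at h1
      rcases h1 with h1 | h1 | h1
      · subst h1; exact hE.1.2.2 heq
      · subst h1; exact hE.1.2.1 heq
      · rw [← heq] at hE
        exact nonedge_sound h h1 hE
    have h1 := memU_bound h lP lN hk hw hne
    have hvi : Function.update v k w i = v i := Function.update_of_ne (by omega) _ _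
    have hvj : Function.update v k w j = v j := Function.update_of_ne (by omega) _ _
    have hvk : Function.update v k w k = w := Function.update_self _ _ _
    have lP' := low_mono lP
    have lN' := low_mono lN
    rcases hE.2 with ⟨e1, e2, e3⟩ | ⟨e1, e2, e3⟩
    · have h2 := inv_addP (inv_addP (inv_addP h1 (i := i) (j := j) (by omega)
        (by rw [hvi, hvj]; exact e1)) (i := j) (j := k) (by omega)
        (by rw [hvj, hvk]; exact e2)) (i := k) (j := i) (by omega)
        (by rw [hvi, hvk]; exact e3)
      have l2 : Low (k + 1) (add (add (add P i j) j k) k i) :=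
        low_add (low_add (low_add lP' (by omega) (by omega) (by omega)) (by omega) (by omega)
          (by omega)) (by omega) (by omega) (by omega)
      cases tour with
      | false => exact iha _ _ _ _ _ ha h2 l2 lN'
      | true =>
        have n1 := hT rfl _ _ (h.mem i hi) (h.mem j hj) e1
        have n2 := hT rfl _ _ (h.mem j hj) hw e2
        have n3 := hT rfl _ _ hw (h.mem i hi) e3
        have h3 := inv_addN (inv_addN (inv_addN h2 (i := j) (j := i) (by omega)
          (by rw [hvi, hvj]; exact n1)) (i := k) (j := j) (by omega)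
          (by rw [hvj, hvk]; exact n2)) (i := i) (j := k) (by omega)
          (by rw [hvi, hvk]; exact n3)
        exact iha _ _ _ _ _ ha h3 l2
          (low_add (low_add (low_add lN' (by omega) (by omega) (by omega)) (by omega)
            (by omega) (by omega)) (by omega) (by omega) (by omega))
    · have h2 := inv_addP (inv_addP (inv_addP h1 (i := j) (j := i) (by omega)
        (by rw [hvi, hvj]; exact e1)) (i := k) (j := j) (by omega)
        (by rw [hvj, hvk]; exact e2)) (i := i) (j := k) (by omega)
        (by rw [hvi, hvk]; exact e3)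
      have l2 : Low (k + 1) (add (add (add P j i) k j) i k) :=
        low_add (low_add (low_add lP' (by omega) (by omega) (by omega)) (by omega) (by omega)
          (by omega)) (by omega) (by omega) (by omega)
      cases tour with
      | false => exact ihb _ _ _ _ _ hb h2 l2 lN'
      | true =>
        have n1 := hT rfl _ _ (h.mem j hj) (h.mem i hi) e1
        have n2 := hT rfl _ _ hw (h.mem j hj) e2
        have n3 := hT rfl _ _ (h.mem i hi) hw e3
        have h3 := inv_addN (inv_addN (inv_addN h2 (i := i) (j := j) (by omega)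
          (by rw [hvi, hvj]; exact n1)) (i := j) (j := k) (by omega)
          (by rw [hvj, hvk]; exact n2)) (i := k) (j := i) (by omega)
          (by rw [hvi, hvk]; exact n3)
        exact ihb _ _ _ _ _ hb h3 l2
          (low_add (low_add (low_add lN' (by omega) (by omega) (by omega)) (by omega)
            (by omega) (by omega)) (by omega) (by omega) (by omega))
  | ud a b c t ih =>
    intro k P N U v hc h lP lN
    simp only [check, Bool.and_eq_true, decide_eq_true_eq] at hc
    obtain ⟨hk, he, hall, ht⟩ := hc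
    have hE := edge_sound h hD he
    have habc : a < k ∧ b < k ∧ c < k := by
      simp only [edge, pos, Bool.or_eq_true, Bool.and_eq_true, decide_eq_true_eq] at he
      rcases he with ⟨h1, h2, h3⟩ | ⟨h1, h2, h3⟩
      · exact ⟨h1.1, h2.1, h3.1⟩
      · exact ⟨h1.2.1, h1.1, h2.1⟩
    obtain ⟨ha, hb, hcc⟩ := habc
    obtain ⟨z, hz, za, zb, zc, n1, n2, n3⟩ := H.undom _ _ _ (h.mem a ha) (h.mem b hb)
      (h.mem c hcc) hE
    have hne : ∀ m < k, v m ≠ z := by
      intro m hm heq
      have h1 := allBelow_iff hall m hm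
      simp only [Bool.or_eq_true, decide_eq_true_eq] at h1
      rcases h1 with h1 | h1 | h1 | h1 | h1 | h1
      · subst h1; exact za heq.symm
      · subst h1; exact zb heq.symm
      · subst h1; exact zc heq.symm
      · rw [← heq] at n1; exact n1 (edge_sound h hD h1)
      · rw [← heq] at n2; exact n2 (edge_sound h hD h1)
      · rw [← heq] at n3; exact n3 (edge_sound h hD h1)
    have h1 := memU_bound h lP lN hk hz hne
    have hva : Function.update v k z a = v a := Function.update_of_ne (by omega) _ _
    have hvb : Function.update v k z b = v b := Function.update_of_ne (by omega) _ _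
    have hvc : Function.update v k z c = v c := Function.update_of_ne (by omega) _ _
    have hvk : Function.update v k z k = z := Function.update_self _ _ _
    refine ih _ _ _ _ _ ht ⟨h1.le, h1.mem, h1.inj, h1.hP, h1.hN, ?_⟩ (low_mono lP)
      (low_mono lN)
    intro z' a' b' c' hm
    simp only [memU, Bool.or_eq_true, Bool.and_eq_true, decide_eq_true_eq] at hm
    rcases hm with ⟨e1, e2, e3, e4⟩ | hm
    · subst e1; subst e2; subst e3; subst e4
      rw [hva, hvb, hvc, hvk]
      exact ⟨by omega, by omega, by omega, by omega, n1, n2, n3⟩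
    · exact h1.hU z' a' b' c' hm

end sound

end Pool.Agent.Lib.MP_bc13a4_co.Tri
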